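import Pool.Agent.Work.MP_e4a69c_an.DZ.Stmts

/-! Item MT2 of theorem DZ (MP_e4a69c_an). -/

set_option autoImplicit false

namespace Pool.Agent.Work.MP_e4a69c_an.DZ

open scoped Manifold ContDiff Topology
open Pool.Agent.Work.MP_e4a69c_an.SU Pool.Agent.Work.MP_e4a69c_an.ML

namespace IMT2

section

variable {ι : Type} (M : Option ι → Type)
  [∀ o, NormedAddCommGroup (M o)] [∀ o, NormedSpace ℂ (M o)]

/-- the vector with components `v.1` at `none` and `v.2 i` at `some i` -/
def mk (v : M none × (∀ i, M (some i))) : ∀ o, M o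
  | none => v.1
  | some i => v.2 i

/-- the product over `Option ι` -/
noncomputable def opt : (M none × (∀ i, M (some i))) ≃L[ℂ] (∀ o, M o) where
  toFun := mk M
  map_add' v w := by
    funext o
    cases o with
    | none => rfl
    | some i => rfl
  map_smul' c v := by
    funext o
    cases o with
    | none => rfl
    | some i => rfl
  invFun u := (u none, fun i => u (some i))
  left_inv v := rfl
  right_inv u := by
    funext o
    cases o with
    | none => rfl
    | some i => rfl
  continuous_toFun := by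
    refine continuous_pi (fun o => ?_)
    cases o with
    | none => exact continuous_fst
    | some i => exact (continuous_apply i).comp continuous_snd
  continuous_invFun :=
    (continuous_apply none).prodMk (continuous_pi (fun i => continuous_apply (some i)))

end

end IMT2

theorem pr_MT2 (hMF : StMF) : StMT2 := by
  intro 𝔤 _ _ G _ _ _ _ ι _ _ M _ _ _ B _ _ _ ρ f p hf h1 h2 hinv hp hs
  obtain ⟨F, hF⟩ := hMF ι M f hf h1 h2
  let Φ : ((M none × (∀ i, M (some i))) × B) ≃L[ℂ] ((∀ o, M o) × B) :=
    (IMT2.opt M).prodCongr (ContinuousLinearEquiv.refl ℂ B)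
  have hΦ : ∀ v, Φ v = (IMT2.mk M v.1, v.2) := fun v => rfl
  have hact : ∀ (g : G) (v : (M none × (∀ i, M (some i))) × B),
      Φ ((zMod (ρ none) (piMod fun i => ρ (some i)) B).act g v) =
        ((piMod ρ).prod (GMod.triv B)).act g (Φ v) := by
    intro g v
    rw [hΦ, hΦ]
    refine Prod.ext ?_ rfl
    funext o
    cases o with
    | none => rfl
    | some i => rfl
  have hfs : ∀ v : (M none × (∀ i, M (some i))) × B, fz f p v = 1 * fs F p (Φ v) := by
    intro v
    rw [one_mul, hΦ]
    show f v.1 - p v.2 = F (IMT2.mk M v.1) - p v.2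
    rw [hF]
    rfl
  have hFi : ∀ (g : G) (x : ∀ o, M o), F (fun o => (ρ o).act g (x o)) = F x := by
    intro g x
    rw [hF, hF]
    exact hinv g (x none) (fun i => x (some i))
  have htr : GElliptic ((piMod ρ).prod (GMod.triv B)) (fs F p) →
      GElliptic (zMod (ρ none) (piMod fun i => ρ (some i)) B) (fz f p) := fun h =>
    pr_TR 𝔤 G _ _ _ _ (fz f p) (fs F p) Φ 1 one_ne_zero hact hfs h
  refine ⟨fun hB => htr ?_, fun y0 x0 hy0 hx0 hne => htr ?_⟩
  · exact mAA 𝔤 G (Option ι) M B ρ (GMod.triv ℂ) (GMod.triv B) _ F p (fun _ _ => rfl) hFi hp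
      (fun _ _ => rfl) hs hB
  · refine mOF 𝔤 G (Option ι) M B ρ _ F p (fun _ _ => rfl) hFi hp hs (IMT2.mk M (y0, x0))
      ?_ ?_
    · intro g o
      cases o with
      | none => exact hy0 g
      | some i => exact hx0 g i
    · rw [hF]
      exact hne

end Pool.Agent.Work.MP_e4a69c_an.DZ
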