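import Pool.Agent.Work.MP_e4a69c_an.DZ.I_MF
import Pool.Agent.Work.MP_e4a69c_an.DZ.I_MT2
import Pool.Agent.Work.MP_e4a69c_an.AF.Stmts

/-! The multiaffine case: transfer from the block AF to functions `f(y,x)`, linear in `y` and affine
in every `x i`. -/

set_option autoImplicit false

namespace Pool.Agent.Work.MP_e4a69c_an.DZ

open scoped Manifold ContDiff Topology
open Pool.Agent.Work.MP_e4a69c_an.SU

/-- for a family indexed by `Option ι` -/
def StMV : Prop := ∀ (𝔤 : Type) [NormedAddCommGroup 𝔤] [NormedSpace ℂ 𝔤]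
  (G : Type) [TopologicalSpace G] [ChartedSpace 𝔤 G] [Group G] [LieGroup 𝓘(ℂ, 𝔤) ω G]
  (ι : Type) [Fintype ι] [DecidableEq ι] (M : Option ι → Type)
  [∀ o, NormedAddCommGroup (M o)] [∀ o, NormedSpace ℂ (M o)] [∀ o, FiniteDimensional ℂ (M o)]
  (B : Type) [NormedAddCommGroup B] [NormedSpace ℂ B] [FiniteDimensional ℂ B]
  (ρ : ∀ o, GMod 𝔤 G (M o)) (f : M none × (∀ i, M (some i)) → ℂ) (p : B → ℂ),
  Differentiable ℂ f → (∀ x, IsLinearMap ℂ (fun y => f (y, x))) →
  (∀ y x i, IsLinearMap ℂ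
    (fun m => f (y, Function.update x i m) - f (y, Function.update x i 0))) →
  (∀ g y x, f ((ρ none).act g y, fun i => (ρ (some i)).act g (x i)) = f (y, x)) →
  Differentiable ℂ p → (∀ z, p z = 0 → fderiv ℂ p z ≠ 0) →
    (GElliptic (GMod.triv (𝔤 := 𝔤) (G := G) B) p →
      GElliptic (zMod (ρ none) (piMod fun i => ρ (some i)) B) (fz f p)) ∧
    (∀ y0 x0, (∀ g, (ρ none).act g y0 = y0) → (∀ g i, (ρ (some i)).act g (x0 i) = x0 i) →
      f (y0, x0) ≠ 0 → GElliptic (zMod (ρ none) (piMod fun i => ρ (some i)) B) (fz f p))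

/-- for a module `E` and a family `M` over `ι` -/
def StMW : Prop := ∀ (𝔤 : Type) [NormedAddCommGroup 𝔤] [NormedSpace ℂ 𝔤]
  (G : Type) [TopologicalSpace G] [ChartedSpace 𝔤 G] [Group G] [LieGroup 𝓘(ℂ, 𝔤) ω G]
  (E : Type) [NormedAddCommGroup E] [NormedSpace ℂ E] [FiniteDimensional ℂ E]
  (ι : Type) [Fintype ι] [DecidableEq ι] (M : ι → Type)
  [∀ i, NormedAddCommGroup (M i)] [∀ i, NormedSpace ℂ (M i)] [∀ i, FiniteDimensional ℂ (M i)]
  (B : Type) [NormedAddCommGroup B] [NormedSpace ℂ B] [FiniteDimensional ℂ B]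
  (ρE : GMod 𝔤 G E) (ρ : ∀ i, GMod 𝔤 G (M i)) (f : E × (∀ i, M i) → ℂ) (p : B → ℂ),
  Differentiable ℂ f → (∀ x, IsLinearMap ℂ (fun y => f (y, x))) →
  (∀ y x i, IsLinearMap ℂ
    (fun m => f (y, Function.update x i m) - f (y, Function.update x i 0))) →
  (∀ g y x, f (ρE.act g y, fun i => (ρ i).act g (x i)) = f (y, x)) →
  Differentiable ℂ p → (∀ z, p z = 0 → fderiv ℂ p z ≠ 0) →
    (GElliptic (GMod.triv (𝔤 := 𝔤) (G := G) B) p →
      GElliptic (zMod ρE (piMod ρ) B) (fz f p)) ∧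
    (∀ y0 x0, (∀ g, ρE.act g y0 = y0) → (∀ g i, (ρ i).act g (x0 i) = x0 i) →
      f (y0, x0) ≠ 0 → GElliptic (zMod ρE (piMod ρ) B) (fz f p))

theorem pr_MV (hAA : AF.StAA) (hOF : AF.StOF) : StMV := by
  intro 𝔤 _ _ G _ _ _ _ ι _ _ M _ _ _ B _ _ _ ρ f p hf h1 h2 hinv hp hs
  let F : (∀ o, M o) → ℂ := fun u => f (u none, fun i => u (some i))
  have hF : ∀ u, F u = f (u none, fun i => u (some i)) := fun u => rfl
  have hMA : AF.MAff F none := by
    refine ⟨?_, ?_, ?_⟩
    · exact hf.comp ((differentiable_apply none).prodMk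
        (differentiable_pi.2 fun i => differentiable_apply (some i)))
    · intro u o
      rcases o with _ | i
      · have h3 : (fun m : M none => F (Function.update u none m) -
            F (Function.update u none 0)) = fun m => f (m, fun i => u (some i)) := by
          funext m
          rw [hF, hF, IMF.none_none, IMF.none_none, IMF.none_some, IMF.none_some,
            (h1 _).map_zero, sub_zero]
        rw [h3]
        exact h1 _
      · have h3 : (fun m : M (some i) => F (Function.update u (some i) m) -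
            F (Function.update u (some i) 0)) =
            fun m => f (u none, Function.update (fun j => u (some j)) i m) -
              f (u none, Function.update (fun j => u (some j)) i 0) := by
          funext m
          rw [hF, hF, IMF.some_none, IMF.some_none, IMF.some_some, IMF.some_some]
        rw [h3]
        exact h2 _ _ i
    · intro u
      rw [hF, IMF.none_none, IMF.none_some]
      exact (h1 _).map_zero
  let Φ : ((M none × (∀ i, M (some i))) × B) ≃L[ℂ] ((∀ o, M o) × B) :=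
    (IMT2.opt M).prodCongr (ContinuousLinearEquiv.refl ℂ B)
  have hΦ : ∀ v, Φ v = (IMT2.mk M v.1, v.2) := fun v => rfl
  have hact : ∀ (g : G) (v : (M none × (∀ i, M (some i))) × B),
      Φ ((zMod (ρ none) (piMod fun i => ρ (some i)) B).act g v) =
        ((piMod ρ).prod (GMod.triv B)).act g (Φ v) := by
    intro g v
    rw [hΦ, hΦ]
    refine Prod.ext ?_ rfl
    funext o
    cases o with
    | none => rfl
    | some i => rfl
  have hfs : ∀ v : (M none × (∀ i, M (some i))) × B, fz f p v = 1 * AF.fA F p (Φ v) := by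
    intro v
    rw [one_mul]
    rfl
  have hFi : ∀ (g : G) (x : ∀ o, M o), F (fun o => (ρ o).act g (x o)) = F x := by
    intro g x
    exact hinv g (x none) (fun i => x (some i))
  have htr : GElliptic ((piMod ρ).prod (GMod.triv B)) (AF.fA F p) →
      GElliptic (zMod (ρ none) (piMod fun i => ρ (some i)) B) (fz f p) := fun h =>
    pr_TR 𝔤 G _ _ _ _ (fz f p) (AF.fA F p) Φ 1 one_ne_zero hact hfs h
  refine ⟨fun hB => htr ?_, fun y0 x0 hy0 hx0 hne => htr ?_⟩
  · exact hAA 𝔤 G (Option ι) M B ρ _ F none p hMA (fun _ _ => rfl) hFi hp hs hB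
  · refine hOF 𝔤 G (Option ι) M B ρ _ F none p hMA (fun _ _ => rfl) hFi hp hs
      (IMT2.mk M (y0, x0)) ?_ hne
    intro g o
    cases o with
    | none => exact hy0 g
    | some i => exact hx0 g i

theorem pr_MW (hMV : StMV) : StMW := by
  intro 𝔤 i1 i2 G i3 i4 i5 i6 E e1 e2 e3 ι j1 j2 M m1 m2 m3 B b1 b2 b3 ρE ρ f p hf hlin hmul hinv
    hp hdp
  let M' : Option ι → Type := fun o => @Option.rec ι (fun _ => Type) E M o
  let n1 : ∀ o, NormedAddCommGroup (M' o) := fun o =>
    @Option.rec ι (fun o => NormedAddCommGroup (M' o)) e1 m1 o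
  let n2 : ∀ o, NormedSpace ℂ (M' o) := fun o =>
    @Option.rec ι (fun o => NormedSpace ℂ (M' o)) e2 m2 o
  let n3 : ∀ o, FiniteDimensional ℂ (M' o) := fun o =>
    @Option.rec ι (fun o => FiniteDimensional ℂ (M' o)) e3 m3 o
  let ρ' : ∀ o, GMod 𝔤 G (M' o) := fun o =>
    @Option.rec ι (fun o => GMod 𝔤 G (M' o)) ρE ρ o
  exact @hMV 𝔤 i1 i2 G i3 i4 i5 i6 ι j1 j2 M' n1 n2 n3 B b1 b2 b3 ρ' f p hf hlin hmul hinv hp hdp

end Pool.Agent.Work.MP_e4a69c_an.DZ
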