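import Pool.Agent.Work.MP_e4a69c_an.ML.Core

/-! The zero set principle: the definitions used in the statement. -/

set_option autoImplicit false

namespace Pool.Agent.Work.MP_e4a69c_an.DZ

open scoped Manifold ContDiff Topology
open Pool.Agent.Work.MP_e4a69c_an.SU Pool.Agent.Work.MP_e4a69c_an.ML

section

variable {𝔤 : Type} [NormedAddCommGroup 𝔤] [NormedSpace ℂ 𝔤]
variable {G : Type} [TopologicalSpace G] [ChartedSpace 𝔤 G] [Group G]
variable {ι : Type} [Fintype ι] {M : ι → Type} [∀ i, NormedAddCommGroup (M i)]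
  [∀ i, NormedSpace ℂ (M i)]
variable {E E' B : Type} [NormedAddCommGroup E] [NormedSpace ℂ E]
  [NormedAddCommGroup E'] [NormedSpace ℂ E'] [NormedAddCommGroup B] [NormedSpace ℂ B]

/-- `g (y,x)`, for `y` in the G-module `E` and `x` in the product of the G-modules `M i`. -/
def act2 (ρE : GMod 𝔤 G E) (ρ : ∀ i, GMod 𝔤 G (M i)) (g : G) (q : E × (∀ i, M i)) :
    E × (∀ i, M i) := (ac ρE g q.1, fun i => ac (ρ i) g (q.2 i))

/-- `ρV` is the product of the modules `E`, `M i` and `B`. -/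
def IsProdT (ρE : GMod 𝔤 G E) (ρ : ∀ i, GMod 𝔤 G (M i)) (ρB : GMod 𝔤 G B)
    (ρV : GMod 𝔤 G ((E × (∀ i, M i)) × B)) : Prop :=
  ∀ g q z, ac ρV g (q, z) = (act2 ρE ρ g q, ac ρB g z)

/-- `f(y,x)` is entire, G-invariant, and linear in `y`. -/
structure IsInv (ρE : GMod 𝔤 G E) (ρ : ∀ i, GMod 𝔤 G (M i)) (f : E × (∀ i, M i) → ℂ) : Prop where
  hol : Differentiable ℂ f
  lin : ∀ x, IsLinearMap ℂ (fun y => f (y, x))
  inv : ∀ g q, f (act2 ρE ρ g q) = f q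

/-- `f(y,x)^n = f'(Q(y,x),x)` for some `n` and some equivariant entire map `Q`. -/
def Below (ρE : GMod 𝔤 G E) (ρE' : GMod 𝔤 G E') (ρ : ∀ i, GMod 𝔤 G (M i))
    (f : E × (∀ i, M i) → ℂ) (f' : E' × (∀ i, M i) → ℂ) : Prop :=
  ∃ (n : ℕ) (Q : E × (∀ i, M i) → E'), Differentiable ℂ Q ∧
    (∀ g q, Q (act2 ρE ρ g q) = ac ρE' g (Q q)) ∧ ∀ q, f q ^ n = f' (Q q, q.2)

/-- The action on `B` is trivial, `p` is entire and `1 = a p + dp(v)` for some entire `a`, `v`. -/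
structure IsTBase (ρB : GMod 𝔤 G B) (p : B → ℂ) : Prop where
  triv : ∀ g z, ac ρB g z = z
  hol : Differentiable ℂ p
  one : ∃ (a : B → ℂ) (v : B → B), Differentiable ℂ a ∧ Differentiable ℂ v ∧
    ∀ z, a z * p z + fderiv ℂ p z (v z) = 1

/-- `f(y,x)` is affine in every `x i`. -/
def IsMultiAff [DecidableEq ι] (f : E × (∀ i, M i) → ℂ) : Prop :=
  ∀ y x i, IsLinearMap ℂ
    (fun m => f (y, Function.update x i m) - f (y, Function.update x i 0))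

/-- The hypersurface `Y = {(y,x,z) : f(y,x) = p(z)}`. -/
def YZ (f : E × (∀ i, M i) → ℂ) (p : B → ℂ) : Set ((E × (∀ i, M i)) × B) := {v | f v.1 = p v.2}

/-- The tangent spaces of `Y`. -/
def TZ (f : E × (∀ i, M i) → ℂ) (p : B → ℂ) :
    (E × (∀ i, M i)) × B → Set ((E × (∀ i, M i)) × B) :=
  fun v => {τ | fderiv ℂ f v.1 τ.1 = fderiv ℂ p v.2 τ.2}

/-- `Y` is G-elliptic. -/
def EllZ (ρV : GMod 𝔤 G ((E × (∀ i, M i)) × B)) (f : E × (∀ i, M i) → ℂ) (p : B → ℂ) : Prop :=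
  GEll ρV (YZ f p) (TZ f p)

/-- The fixed locus `Y^G` is G-elliptic. -/
def EllZG (ρV : GMod 𝔤 G ((E × (∀ i, M i)) × B)) (f : E × (∀ i, M i) → ℂ) (p : B → ℂ) : Prop :=
  GEll ρV (YZ f p ∩ fixS ⊤ ρV) (fun v => TZ f p v ∩ fixS ⊤ ρV)

end

end Pool.Agent.Work.MP_e4a69c_an.DZ
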