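import Pool.Agent.Work.MP_e4a69c_an.ML.Final

/-! The zero set principle (MP_e4a69c_an, theorem DZ): G-ellipticity of `{f(y,x) = p(z)}`, `f` linear
in `y`, depends only on the zero set of `x ↦ f(·,x)`. Working definitions. -/

set_option autoImplicit false

namespace Pool.Agent.Work.MP_e4a69c_an.DZ

open scoped Manifold ContDiff Topology
open Pool.Agent.Work.MP_e4a69c_an.SU Pool.Agent.Work.MP_e4a69c_an.ML

section

variable {𝔤 : Type} [NormedAddCommGroup 𝔤] [NormedSpace ℂ 𝔤]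
variable {G : Type} [TopologicalSpace G] [ChartedSpace 𝔤 G] [Group G]
variable {E E' X B : Type} [NormedAddCommGroup E] [NormedSpace ℂ E]
  [NormedAddCommGroup E'] [NormedSpace ℂ E']
  [NormedAddCommGroup X] [NormedSpace ℂ X] [NormedAddCommGroup B] [NormedSpace ℂ B]

/-- `F(y,x,z) = f(y,x) - p(z)` -/
def fz (f : E × X → ℂ) (p : B → ℂ) : (E × X) × B → ℂ := fun v => f v.1 - p v.2

/-- the G-module `(E × X) × B`, trivial action on `B` -/
noncomputable def zMod (ρE : GMod 𝔤 G E) (ρX : GMod 𝔤 G X) (B : Type) [NormedAddCommGroup B]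
    [NormedSpace ℂ B] : GMod 𝔤 G ((E × X) × B) := (ρE.prod ρX).prod (GMod.triv B)

@[simp] theorem zMod_act (ρE : GMod 𝔤 G E) (ρX : GMod 𝔤 G X) (g : G) (v : (E × X) × B) :
    (zMod ρE ρX B).act g v = ((ρE.act g v.1.1, ρX.act g v.1.2), v.2) := rfl

/-- `f` is entire, invariant, and linear in the first variable. -/
structure LinInv (ρE : GMod 𝔤 G E) (ρX : GMod 𝔤 G X) (f : E × X → ℂ) : Prop where
  hol : Differentiable ℂ f
  add : ∀ y y' x, f (y + y', x) = f (y, x) + f (y', x)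
  smul : ∀ (c : ℂ) y x, f (c • y, x) = c * f (y, x)
  inv : ∀ g y x, f (ρE.act g y, ρX.act g x) = f (y, x)

/-- `Q` is entire, equivariant, and `f(y,x)^n = f'(Q(y,x),x)`. -/
structure Dmn (ρE : GMod 𝔤 G E) (ρX : GMod 𝔤 G X) (ρE' : GMod 𝔤 G E') (f : E × X → ℂ)
    (f' : E' × X → ℂ) (n : ℕ) (Q : E × X → E') : Prop where
  hol : Differentiable ℂ Q
  equi : ∀ g y x, Q (ρE.act g y, ρX.act g x) = ρE'.act g (Q (y, x))
  pow : ∀ y x, f (y, x) ^ n = f' (Q (y, x), x)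

/-- `1` is in the ideal generated by `p` and its derivatives. -/
def Bez (p : B → ℂ) : Prop := ∃ (a : B → ℂ) (v : B → B), Differentiable ℂ a ∧ Differentiable ℂ v ∧
  ∀ z, a z * p z + fderiv ℂ p z (v z) = 1

/-- `(φ,b,e)` is a Newton map of order `n` for `p`: `φ(z) = z - p(z) b(z)`, `p(φ(z)) = p(z)^n e(z)`. -/
structure Newt (p : B → ℂ) (n : ℕ) (φ b : B → B) (e : B → ℂ) : Prop where
  hφ : Differentiable ℂ φ
  hb : Differentiable ℂ b
  he : Differentiable ℂ e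
  eq : ∀ z, φ z = z - p z • b z
  pow : ∀ z, p (φ z) = p z ^ n * e z

/-- the parameter module `Hom(E^*,B) × Hom(E^*,E)` -/
noncomputable def wMod [LieGroup 𝓘(ℂ, 𝔤) ω G] (ρE : GMod 𝔤 G E) (B : Type)
    [NormedAddCommGroup B] [NormedSpace ℂ B] :
    GMod 𝔤 G (((E →L[ℂ] ℂ) →L[ℂ] B) × ((E →L[ℂ] ℂ) →L[ℂ] E)) :=
  ((ρE.hom (GMod.triv ℂ)).hom (GMod.triv B)).prod ((ρE.hom (GMod.triv ℂ)).hom ρE)

/-- the map `σ : V → V'` -/
def sg (f : E × X → ℂ) (Q : E × X → E') (φ : B → B) (e : B → ℂ) :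
    (E × X) × B → (E' × X) × B :=
  fun v => (((e v.2 * f v.1) • Q v.1, v.1.2), φ v.2)

/-- `φ(φ(z)) = z - p(z) b2(z)` -/
def b2 (p : B → ℂ) (φ b : B → B) (e : B → ℂ) (N : ℕ) : B → B :=
  fun z => b z + (p z ^ N * e z) • b (φ z)

/-- the syzygy `κ'` -/
def kp (f : E × X → ℂ) (Q : E × X → E') (P : E' × X → E) (φ : B → B) (e : B → ℂ) (N : ℕ) :
    (E × X) × B → E :=
  fun v => e (φ v.2) • ((f v.1 ^ (N * N + 2 * N - 1) * e v.2 ^ (N + 1)) • v.1.1 -
    (e v.2 * f v.1 ^ N) • P ((e v.2 * f v.1) • Q v.1, v.1.2))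

/-- the rank one map `ζ ↦ ζ(y) h` -/
noncomputable def rk {H : Type} [NormedAddCommGroup H] [NormedSpace ℂ H] (y : E) (h : H) :
    (E →L[ℂ] ℂ) →L[ℂ] H := (ContinuousLinearMap.apply ℂ ℂ y).smulRight h

@[simp] theorem rk_apply {H : Type} [NormedAddCommGroup H] [NormedSpace ℂ H] (y : E) (h : H)
    (ζ : E →L[ℂ] ℂ) : rk y h ζ = ζ y • h := rfl

/-- the parameters `κ : V → W0` -/
noncomputable def kz (f : E × X → ℂ) (Q : E × X → E') (P : E' × X → E) (p : B → ℂ) (φ b : B → B)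
    (e : B → ℂ) (N : ℕ) :
    (E × X) × B → ((E →L[ℂ] ℂ) →L[ℂ] B) × ((E →L[ℂ] ℂ) →L[ℂ] E) :=
  fun v => (rk v.1.1 (b2 p φ b e N v.2), rk v.1.1 (kp f Q P φ e N v))

/-- the map `τ : V' × W0 → V`; `S x = f(·,x)`, `J` the inverse of the bidual map -/
noncomputable def tz (J : ((E →L[ℂ] ℂ) →L[ℂ] ℂ) →L[ℂ] E) (S : X → (E →L[ℂ] ℂ))
    (f' : E' × X → ℂ) (P : E' × X → E) (p : B → ℂ) (φ : B → B) (e : B → ℂ) :
    ((E' × X) × B) × (((E →L[ℂ] ℂ) →L[ℂ] B) × ((E →L[ℂ] ℂ) →L[ℂ] E)) → (E × X) × B :=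
  fun u => (((e u.1.2 * f' u.1.1) • P u.1.1 +
      J ((qq p (φ u.1.2) (u.2.1 (S u.1.1.2))).comp u.2.1) +
      (u.2.2 (S u.1.1.2) - J ((S u.1.1.2).comp u.2.2)), u.1.1.2),
    φ u.1.2 + u.2.1 (S u.1.1.2))

end

section

variable {𝔤 : Type} [NormedAddCommGroup 𝔤] [NormedSpace ℂ 𝔤]
variable {G : Type} [TopologicalSpace G] [ChartedSpace 𝔤 G] [Group G]
variable {ι : Type} [Fintype ι] {M : ι → Type} [∀ i, NormedAddCommGroup (M i)]
  [∀ i, NormedSpace ℂ (M i)]

/-- the product of the modules `M i` -/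
noncomputable def piMod [DecidableEq ι] (ρ : ∀ i, GMod 𝔤 G (M i)) : GMod 𝔤 G (∀ i, M i) where
  act :=
    { toFun := fun g => ContinuousLinearMap.pi
        (fun i => ((ρ i).act g).comp (ContinuousLinearMap.proj i))
      map_one' := by
        apply ContinuousLinearMap.ext; intro x
        funext i
        show (ρ i).act 1 (x i) = x i
        simp
      map_mul' := by
        intro g h
        apply ContinuousLinearMap.ext; intro x
        funext i
        show (ρ i).act (g * h) (x i) = (ρ i).act g ((ρ i).act h (x i))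
        rw [GMod.act_mul] }
  hol := by
    have h1 : ∀ g : G, (ContinuousLinearMap.pi
        (fun i => ((ρ i).act g).comp (ContinuousLinearMap.proj i)) : (∀ i, M i) →L[ℂ] (∀ i, M i))
        = ∑ i, (ContinuousLinearMap.single ℂ M i).comp
          (((ρ i).act g).comp (ContinuousLinearMap.proj i)) := by
      intro g
      apply ContinuousLinearMap.ext; intro x
      funext j
      rw [ContinuousLinearMap.sum_apply, Finset.sum_apply]
      show (ρ j).act g (x j) = ∑ i, (Pi.single i ((ρ i).act g (x i)) : ∀ i, M i) j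
      rw [Finset.sum_eq_single j]
      · rw [Pi.single_eq_same]
      · intro i _ hij
        rw [Pi.single_eq_of_ne (Ne.symm hij)]
      · intro h
        exact absurd (Finset.mem_univ j) h
    show ContMDiff 𝓘(ℂ, 𝔤) 𝓘(ℂ, (∀ i, M i) →L[ℂ] (∀ i, M i)) ω (fun g : G =>
      (ContinuousLinearMap.pi (fun i => ((ρ i).act g).comp (ContinuousLinearMap.proj i)) :
        (∀ i, M i) →L[ℂ] (∀ i, M i)))
    rw [funext h1]
    refine contMDiff_finsetSum ?_
    intro i _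
    exact contMDiff_const.clm_comp ((ρ i).hol.clm_comp contMDiff_const)

@[simp] theorem piMod_act [DecidableEq ι] (ρ : ∀ i, GMod 𝔤 G (M i)) (g : G) (x : ∀ i, M i) :
    (piMod ρ).act g x = fun i => (ρ i).act g (x i) := rfl

end

end Pool.Agent.Work.MP_e4a69c_an.DZ
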