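import Pool.Agent.Work.MP_e4a69c_an.DZ.Stmts

/-! Item ET of block DZ (helper6): equivariance of `τ`. -/

set_option autoImplicit false

namespace Pool.Agent.Work.MP_e4a69c_an.DZ

open scoped Manifold ContDiff Topology
open Pool.Agent.Work.MP_e4a69c_an.SU Pool.Agent.Work.MP_e4a69c_an.ML

theorem IET.sep (E : Type) [NormedAddCommGroup E] [NormedSpace ℂ E] (u v : E)
    (h : ∀ ζ : E →L[ℂ] ℂ, ζ u = ζ v) : u = v := by
  by_contra hne
  obtain ⟨l, hl⟩ := SeparatingDual.exists_ne_zero (R := ℂ) (sub_ne_zero.mpr hne)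
  exact hl (by rw [map_sub, h l, sub_self])

theorem pr_ET : StET := by
  intro 𝔤 _ _ G _ _ _ _ E E' X B _ _ _ _ _ _ _ _ _ _ ρE ρE' ρX J S f' P p φ e hJ hS hf hP g v u
  obtain ⟨⟨y, x⟩, z⟩ := v
  obtain ⟨c, t⟩ := u
  obtain ⟨c', hc'⟩ : ∃ c', c' = ((ρE.hom (GMod.triv ℂ)).hom (GMod.triv B)).act g c := ⟨_, rfl⟩
  obtain ⟨t', ht'⟩ : ∃ t', t' = ((ρE.hom (GMod.triv ℂ)).hom ρE).act g t := ⟨_, rfl⟩
  have hc : ∀ ζ : E →L[ℂ] ℂ, c' ζ = c ((ρE.hom (GMod.triv ℂ)).act g⁻¹ ζ) := by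
    intro ζ
    rw [hc', GMod.hom_act]
    rfl
  have ht : ∀ ζ : E →L[ℂ] ℂ, t' ζ = ρE.act g (t ((ρE.hom (GMod.triv ℂ)).act g⁻¹ ζ)) := by
    intro ζ
    rw [ht', GMod.hom_act]
  have hζ : ∀ (ζ : E →L[ℂ] ℂ) (w : E), ζ (ρE.act g w) =
      (ρE.hom (GMod.triv (𝔤 := 𝔤) (G := G) ℂ)).act g⁻¹ ζ w := by
    intro ζ w
    rw [GMod.hom_act, inv_inv]
    rfl
  have h1 : c' (S (ρX.act g x)) = c (S x) := by
    rw [hc, hS, GMod.act_inv_act]
  have h2 : t' (S (ρX.act g x)) = ρE.act g (t (S x)) := by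
    rw [ht, hS, GMod.act_inv_act]
  have h3 : ∀ q : B →L[ℂ] ℂ, J (q.comp c') = ρE.act g (J (q.comp c)) := by
    intro q
    apply IET.sep
    intro ζ
    rw [hJ, hζ, hJ, ContinuousLinearMap.comp_apply, ContinuousLinearMap.comp_apply, hc]
  have h4 : J ((S (ρX.act g x)).comp t') = ρE.act g (J ((S x).comp t)) := by
    apply IET.sep
    intro ζ
    rw [hJ, hζ, hJ, ContinuousLinearMap.comp_apply, ContinuousLinearMap.comp_apply, ht, hS,
      GMod.hom_act, GMod.act_inv_act]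
    rfl
  show (((e z * f' (ρE'.act g y, ρX.act g x)) • P (ρE'.act g y, ρX.act g x) +
      J ((qq p (φ z) ((((ρE.hom (GMod.triv ℂ)).hom (GMod.triv B)).act g c) (S (ρX.act g x)))).comp
        (((ρE.hom (GMod.triv ℂ)).hom (GMod.triv B)).act g c)) +
      ((((ρE.hom (GMod.triv ℂ)).hom ρE).act g t) (S (ρX.act g x)) -
        J ((S (ρX.act g x)).comp (((ρE.hom (GMod.triv ℂ)).hom ρE).act g t))), ρX.act g x),
    φ z + (((ρE.hom (GMod.triv ℂ)).hom (GMod.triv B)).act g c) (S (ρX.act g x))) =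
    ((ρE.act g ((e z * f' (y, x)) • P (y, x) + J ((qq p (φ z) (c (S x))).comp c) +
      (t (S x) - J ((S x).comp t))), ρX.act g x), φ z + c (S x))
  rw [← hc', ← ht', h1, h2, h3, h4, hf, hP, map_add, map_add, map_sub, map_smul]

end Pool.Agent.Work.MP_e4a69c_an.DZ
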