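import Pool.Agent.Work.MP_e4a69c_an.DZ.Stmts

/-! Theorem DZ, item FX: the differentiable map `x ↦ f(.,x)` (helper57). -/

set_option autoImplicit false

namespace Pool.Agent.Work.MP_e4a69c_an.DZ

open scoped Manifold ContDiff Topology
open Pool.Agent.Work.MP_e4a69c_an.SU Pool.Agent.Work.MP_e4a69c_an.ML

namespace IFX

theorem map_sum {E X : Type} [NormedAddCommGroup E] [NormedSpace ℂ E] (f : E × X → ℂ)
    (hadd : ∀ y y' x, f (y + y', x) = f (y, x) + f (y', x))
    (hsmul : ∀ (c : ℂ) y x, f (c • y, x) = c * f (y, x)) (x : X) {ι : Type} (s : Finset ι)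
    (c : ι → ℂ) (e : ι → E) : f (∑ i ∈ s, c i • e i, x) = ∑ i ∈ s, c i * f (e i, x) := by
  classical
  induction s using Finset.induction_on with
  | empty =>
    have h0 := hsmul 0 0 x
    simpa using h0
  | insert a s ha ih =>
    rw [Finset.sum_insert ha, Finset.sum_insert ha, hadd, hsmul, ih]

end IFX

theorem pr_FX : StFX := by
  intro E X _ _ _ _ _ f hf hadd hsmul
  let b := Module.finBasis ℂ E
  let cf : Fin (Module.finrank ℂ E) → (E →L[ℂ] ℂ) :=
    fun i => LinearMap.toContinuousLinearMap (b.coord i)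
  refine ⟨fun x => ∑ i, f (b i, x) • cf i, ?_, ?_⟩
  · have h1 : ∀ i : Fin (Module.finrank ℂ E), Differentiable ℂ (fun x : X => f (b i, x) • cf i) := by
      intro i
      have h2 : Differentiable ℂ (fun x : X => f (b i, x)) :=
        hf.comp ((differentiable_const _).prodMk differentiable_id)
      exact h2.smul_const (cf i)
    exact Differentiable.fun_sum (fun i _ => h1 i)
  · intro x y
    have h1 : (∑ i, f (b i, x) • cf i) y = ∑ i, f (b i, x) * b.coord i y := by
      rw [sum_apply]
      rfl
    have h2 : (∑ i, b.coord i y • b i) = y := b.sum_repr y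
    have h3 := IFX.map_sum f hadd hsmul x Finset.univ (fun i => b.coord i y) (fun i => b i)
    rw [h2] at h3
    rw [h3]
    refine h1.trans (Finset.sum_congr rfl (fun i _ => mul_comm _ _))

end Pool.Agent.Work.MP_e4a69c_an.DZ
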