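import Pool.Agent.Work.MP_e4a69c_an.DZ.Stmts

/-! Block DZ, item HT: the map `τ` is holomorphic. -/

set_option autoImplicit false

namespace Pool.Agent.Work.MP_e4a69c_an.DZ

open scoped Manifold ContDiff Topology
open Pool.Agent.Work.MP_e4a69c_an.SU Pool.Agent.Work.MP_e4a69c_an.ML

section

variable {Y1 Y2 B C D : Type} [NormedAddCommGroup Y1] [NormedSpace ℂ Y1]
  [NormedAddCommGroup Y2] [NormedSpace ℂ Y2] [NormedAddCommGroup B] [NormedSpace ℂ B]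
  [NormedAddCommGroup C] [NormedSpace ℂ C] [NormedAddCommGroup D] [NormedSpace ℂ D]

theorem IHT.p11 : Differentiable ℂ (fun u : (Y1 × B) × (C × D) => u.1.1) :=
  (ContinuousLinearMap.fst ℂ Y1 B ∘L ContinuousLinearMap.fst ℂ (Y1 × B) (C × D)).differentiable

theorem IHT.p12 : Differentiable ℂ (fun u : (Y1 × B) × (C × D) => u.1.2) :=
  (ContinuousLinearMap.snd ℂ Y1 B ∘L ContinuousLinearMap.fst ℂ (Y1 × B) (C × D)).differentiable

theorem IHT.p21 : Differentiable ℂ (fun u : (Y1 × B) × (C × D) => u.2.1) :=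
  (ContinuousLinearMap.fst ℂ C D ∘L ContinuousLinearMap.snd ℂ (Y1 × B) (C × D)).differentiable

theorem IHT.p22 : Differentiable ℂ (fun u : (Y1 × B) × (C × D) => u.2.2) :=
  (ContinuousLinearMap.snd ℂ C D ∘L ContinuousLinearMap.snd ℂ (Y1 × B) (C × D)).differentiable

theorem IHT.p112 : Differentiable ℂ (fun u : ((Y1 × Y2) × B) × (C × D) => u.1.1.2) :=
  (ContinuousLinearMap.snd ℂ Y1 Y2 ∘L ContinuousLinearMap.fst ℂ (Y1 × Y2) B ∘L
    ContinuousLinearMap.fst ℂ ((Y1 × Y2) × B) (C × D)).differentiable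

end

/-- Composition, with abstract types. -/
theorem IHT.cmp {U V W : Type} [NormedAddCommGroup U] [NormedSpace ℂ U] [NormedAddCommGroup V]
    [NormedSpace ℂ V] [NormedAddCommGroup W] [NormedSpace ℂ W] {g : V → W} {f : U → V}
    (hg : Differentiable ℂ g) (hf : Differentiable ℂ f) : Differentiable ℂ (fun u => g (f u)) :=
  hg.comp hf

/-- The map, with abstract types. -/
theorem IHT.main {U E X B N : Type} [NormedAddCommGroup U] [NormedSpace ℂ U]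
    [NormedAddCommGroup E] [NormedSpace ℂ E] [NormedAddCommGroup X] [NormedSpace ℂ X]
    [NormedAddCommGroup B] [NormedSpace ℂ B] [NormedAddCommGroup N] [NormedSpace ℂ N]
    (J : (N →L[ℂ] ℂ) →L[ℂ] E) (p : B → ℂ) (hq : Differentiable ℂ (fun x : B × B => qq p x.1 x.2))
    (x : U → X) (z : U → B) (ez fx : U → ℂ) (Px : U → E) (c : U → (N →L[ℂ] B)) (s : U → N)
    (t : U → (N →L[ℂ] E)) (k : U → (N →L[ℂ] ℂ))
    (hx : Differentiable ℂ x) (hz : Differentiable ℂ z) (hez : Differentiable ℂ ez)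
    (hfx : Differentiable ℂ fx) (hPx : Differentiable ℂ Px) (hc : Differentiable ℂ c)
    (hs : Differentiable ℂ s) (ht : Differentiable ℂ t) (hk : Differentiable ℂ k) :
    Differentiable ℂ (fun u : U => ((((ez u * fx u) • Px u +
      J ((qq p (z u) (c u (s u))).comp (c u)) + (t u (s u) - J (k u)), x u) : E × X),
      z u + c u (s u))) := by
  have hcs : Differentiable ℂ (fun u : U => c u (s u)) := hc.clm_apply hs
  have hts : Differentiable ℂ (fun u : U => t u (s u)) := ht.clm_apply hs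
  have hqu : Differentiable ℂ (fun u : U => qq p (z u) (c u (s u))) := hq.comp (hz.prodMk hcs)
  have h1 : Differentiable ℂ (fun u : U => (ez u * fx u) • Px u) := (hez.mul hfx).smul hPx
  have h2 : Differentiable ℂ (fun u : U => J ((qq p (z u) (c u (s u))).comp (c u))) :=
    J.differentiable.comp (hqu.clm_comp hc)
  have h3 : Differentiable ℂ (fun u : U => J (k u)) := J.differentiable.comp hk
  exact (((h1.add h2).add (hts.sub h3)).prodMk hx).prodMk (hz.add hcs)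

/-- Composition of functional and operator, with abstract types. -/
theorem IHT.cc {U E N : Type} [NormedAddCommGroup U] [NormedSpace ℂ U]
    [NormedAddCommGroup E] [NormedSpace ℂ E] [NormedAddCommGroup N] [NormedSpace ℂ N]
    {r : U → (E →L[ℂ] ℂ)} {t : U → (N →L[ℂ] E)} (hr : Differentiable ℂ r)
    (ht : Differentiable ℂ t) : Differentiable ℂ (fun u => (r u).comp (t u)) := hr.clm_comp ht

theorem pr_HT : StHT := by
  intro E E' X B _ _ _ _ _ _ _ _ _ _ J S f' P p φ e hS hf' hP hp hφ he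
  have hq : Differentiable ℂ (fun x : B × B => qq p x.1 x.2) := aQD B p hp
  have h11 := IHT.p11 (Y1 := E' × X) (B := B)
    (C := (E →L[ℂ] ℂ) →L[ℂ] B) (D := (E →L[ℂ] ℂ) →L[ℂ] E)
  have hx := IHT.p112 (Y1 := E') (Y2 := X) (B := B)
    (C := (E →L[ℂ] ℂ) →L[ℂ] B) (D := (E →L[ℂ] ℂ) →L[ℂ] E)
  have hz := IHT.p12 (Y1 := E' × X) (B := B)
    (C := (E →L[ℂ] ℂ) →L[ℂ] B) (D := (E →L[ℂ] ℂ) →L[ℂ] E)
  have hc := IHT.p21 (Y1 := E' × X) (B := B)
    (C := (E →L[ℂ] ℂ) →L[ℂ] B) (D := (E →L[ℂ] ℂ) →L[ℂ] E)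
  have ht := IHT.p22 (Y1 := E' × X) (B := B)
    (C := (E →L[ℂ] ℂ) →L[ℂ] B) (D := (E →L[ℂ] ℂ) →L[ℂ] E)
  have hSx := IHT.cmp (U := ((E' × X) × B) × (((E →L[ℂ] ℂ) →L[ℂ] B) × ((E →L[ℂ] ℂ) →L[ℂ] E)))
    (V := X) (W := E →L[ℂ] ℂ) hS hx
  have hφz := IHT.cmp (U := ((E' × X) × B) × (((E →L[ℂ] ℂ) →L[ℂ] B) × ((E →L[ℂ] ℂ) →L[ℂ] E)))
    (V := B) (W := B) hφ hz
  have hez := IHT.cmp (U := ((E' × X) × B) × (((E →L[ℂ] ℂ) →L[ℂ] B) × ((E →L[ℂ] ℂ) →L[ℂ] E)))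
    (V := B) (W := ℂ) he hz
  have hfx := IHT.cmp (U := ((E' × X) × B) × (((E →L[ℂ] ℂ) →L[ℂ] B) × ((E →L[ℂ] ℂ) →L[ℂ] E)))
    (V := E' × X) (W := ℂ) hf' h11
  have hPx := IHT.cmp (U := ((E' × X) × B) × (((E →L[ℂ] ℂ) →L[ℂ] B) × ((E →L[ℂ] ℂ) →L[ℂ] E)))
    (V := E' × X) (W := E) hP h11
  have hk := IHT.cc (U := ((E' × X) × B) × (((E →L[ℂ] ℂ) →L[ℂ] B) × ((E →L[ℂ] ℂ) →L[ℂ] E)))
    (E := E) (N := E →L[ℂ] ℂ) hSx ht
  exact IHT.main (U := ((E' × X) × B) × (((E →L[ℂ] ℂ) →L[ℂ] B) × ((E →L[ℂ] ℂ) →L[ℂ] E)))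
    (E := E) (X := X) (B := B) (N := E →L[ℂ] ℂ) J p hq _ _ _ _ _ _ _ _ _
    hx hφz hez hfx hPx hc hSx ht hk

end Pool.Agent.Work.MP_e4a69c_an.DZ
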