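import Pool.Agent.Work.MP_e4a69c_an.DZ.Stmts

/-! Item ID of the block DZ: `τ(σ(v),κ(v)) = v` on `{F = 0}`. -/

set_option autoImplicit false

namespace Pool.Agent.Work.MP_e4a69c_an.DZ

open scoped Manifold ContDiff Topology
open Pool.Agent.Work.MP_e4a69c_an.SU Pool.Agent.Work.MP_e4a69c_an.ML

namespace IID

variable {E B : Type} [NormedAddCommGroup E] [NormedSpace ℂ E]
  [NormedAddCommGroup B] [NormedSpace ℂ B]

/-- the second iterate of the Newton map -/
theorem iter {p : B → ℂ} {N : ℕ} {φ b : B → B} {e : B → ℂ} (hN : Newt p (N + 1) φ b e) (z : B) :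
    φ (φ z) + p z • b2 p φ b e N z = z := by
  have h1 : φ (φ z) = φ z - p (φ z) • b (φ z) := hN.eq (φ z)
  have h2 : φ z = z - p z • b z := hN.eq z
  have h3 : p (φ z) = p z ^ (N + 1) * e z := hN.pow z
  have h4 : p z • ((p z ^ N * e z) • b (φ z)) = (p z ^ (N + 1) * e z) • b (φ z) := by
    rw [smul_smul]
    congr 1
    ring
  have h5 : φ (φ z) = z - p z • b z - (p z ^ (N + 1) * e z) • b (φ z) := by
    calc φ (φ z) = φ z - p (φ z) • b (φ z) := h1
      _ = φ z - (p z ^ (N + 1) * e z) • b (φ z) := by rw [h3]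
      _ = z - p z • b z - (p z ^ (N + 1) * e z) • b (φ z) := by
          nth_rewrite 1 [h2]
          rfl
  unfold b2
  rw [h5, smul_add, h4]
  abel

/-- the claim (q) -/
theorem claimq [FiniteDimensional ℂ B] {p : B → ℂ} {N : ℕ} {φ b : B → B} {e : B → ℂ}
    (hp : Differentiable ℂ p) (hd : ∀ z, p z = 0 → fderiv ℂ p z ≠ 0)
    (hN : Newt p (N + 1) φ b e) (z : B) :
    qq p (φ (φ z)) (p z • b2 p φ b e N z) (b2 p φ b e N z) =
      1 - p z ^ (N * N + 2 * N) * e z ^ (N + 1) * e (φ z) := by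
  have hcφ : Continuous φ := hN.hφ.continuous
  have hcb : Continuous b := hN.hb.continuous
  have hce : Continuous e := hN.he.continuous
  have hcp : Continuous p := hp.continuous
  have hcb2 : Continuous (b2 p φ b e N) := by
    unfold b2
    exact hcb.add (((hcp.pow N).mul hce).smul (hcb.comp hcφ))
  have hcq : Continuous (fun x : B × B => qq p x.1 x.2) := (aQD B p hp).continuous
  have hL : Continuous (fun z => qq p (φ (φ z)) (p z • b2 p φ b e N z) (b2 p φ b e N z)) := by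
    have h1 : Continuous (fun z => qq p (φ (φ z)) (p z • b2 p φ b e N z)) :=
      hcq.comp ((hcφ.comp hcφ).prodMk (hcp.smul hcb2))
    exact h1.clm_apply hcb2
  have hR : Continuous (fun z => 1 - p z ^ (N * N + 2 * N) * e z ^ (N + 1) * e (φ z)) :=
    continuous_const.sub (((hcp.pow _).mul (hce.pow _)).mul (hce.comp hcφ))
  have hdense : Dense {z : B | p z ≠ 0} := pr_DN B p hd
  have heq : (fun z => qq p (φ (φ z)) (p z • b2 p φ b e N z) (b2 p φ b e N z)) =
      (fun z => 1 - p z ^ (N * N + 2 * N) * e z ^ (N + 1) * e (φ z)) := by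
    refine hL.ext_on hdense hR ?_
    intro w hw
    have hw0 : p w ≠ 0 := hw
    have h2 : qq p (φ (φ w)) (p w • b2 p φ b e N w) (p w • b2 p φ b e N w) =
        p (φ (φ w) + p w • b2 p φ b e N w) - p (φ (φ w)) := (aQH B p hp).1 _ _
    rw [iter hN w, ContinuousLinearMap.map_smul, smul_eq_mul] at h2
    have h3 : p (φ (φ w)) = p (φ w) ^ (N + 1) * e (φ w) := hN.pow (φ w)
    have h4 : p (φ w) = p w ^ (N + 1) * e w := hN.pow w
    rw [h3, h4] at h2
    have h5 : (p w ^ (N + 1) * e w) ^ (N + 1) * e (φ w) =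
        p w * (p w ^ (N * N + 2 * N) * e w ^ (N + 1) * e (φ w)) := by
      rw [mul_pow, ← pow_mul]
      have : (N + 1) * (N + 1) = (N * N + 2 * N) + 1 := by ring
      rw [this, pow_succ]
      ring
    rw [h5] at h2
    show qq p (φ (φ w)) (p w • b2 p φ b e N w) (b2 p φ b e N w) =
      1 - p w ^ (N * N + 2 * N) * e w ^ (N + 1) * e (φ w)
    apply mul_left_cancel₀ hw0
    rw [h2]
    ring
  exact congrFun heq z

/-- the inverse of the bidual map on rank one maps -/
theorem Jrk {H : Type} [NormedAddCommGroup H] [NormedSpace ℂ H]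
    (J : ((E →L[ℂ] ℂ) →L[ℂ] ℂ) →L[ℂ] E)
    (hJ : ∀ (Θ : (E →L[ℂ] ℂ) →L[ℂ] ℂ) (ζ : E →L[ℂ] ℂ), ζ (J Θ) = Θ ζ) (q : H →L[ℂ] ℂ) (y : E)
    (h : H) : J (q.comp (rk y h)) = q h • y := by
  rw [NormedSpace.eq_iff_forall_dual_eq ℂ]
  intro ζ
  have h1 : ζ (J (q.comp (rk y h))) = q (rk y h ζ) := hJ _ ζ
  have h2 : q (rk y h ζ) = ζ y * q h := by
    rw [rk_apply, ContinuousLinearMap.map_smul, smul_eq_mul]
  have h3 : ζ (q h • y) = q h * ζ y := by
    rw [ContinuousLinearMap.map_smul, smul_eq_mul]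
  calc ζ (J (q.comp (rk y h))) = q (rk y h ζ) := h1
    _ = ζ y * q h := h2
    _ = q h * ζ y := mul_comm _ _
    _ = ζ (q h • y) := h3.symm

end IID

theorem pr_ID : StID := by
  intro E E' X B _ _ _ _ _ _ _ _ _ _ J S f f' Q P p φ b e N hJ hS hf'l hQ hP hN1 hp hd hN
  rintro ⟨⟨y, x⟩, z⟩ hv
  have hfp : f (y, x) = p z := by
    have : f (y, x) - p z = 0 := hv
    exact sub_eq_zero.1 this
  have hSy : S x y = f (y, x) := hS x y
  set F : ℂ := f (y, x) with hF
  set y1 : E' := (e z * F) • Q (y, x) with hy1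
  have hf'y1 : f' (y1, x) = e z * F ^ (N + 1) := by
    rw [hy1, hf'l, ← hQ]
    rw [pow_succ]
    ring
  set κ : E := kp f Q P φ e N ((y, x), z) with hκ
  have hκe : κ = e (φ z) • ((F ^ (N * N + 2 * N - 1) * e z ^ (N + 1)) • y -
      (e z * F ^ N) • P (y1, x)) := rfl
  have hpw : F ^ (N * N + 2 * N - 1) * F = F ^ (N * N + 2 * N) := by
    rw [← pow_succ]
    congr 1
    have : 1 ≤ N * N + 2 * N := by nlinarith
    omega
  have hSP : S x (P (y1, x)) = (e z * F ^ (N + 1)) ^ N := by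
    rw [hS, ← hP, hf'y1]
  have hSκ : S x κ = 0 := by
    rw [hκe, ContinuousLinearMap.map_smul, map_sub, ContinuousLinearMap.map_smul,
      ContinuousLinearMap.map_smul, hSy, hSP]
    simp only [smul_eq_mul]
    have h1 : F ^ (N * N + 2 * N - 1) * e z ^ (N + 1) * F =
        F ^ (N * N + 2 * N) * e z ^ (N + 1) := by
      rw [← hpw]
      ring
    have h2 : e z * F ^ N * (e z * F ^ (N + 1)) ^ N = F ^ (N * N + 2 * N) * e z ^ (N + 1) := by
      rw [mul_pow, ← pow_mul]
      have : N * N + 2 * N = N + (N + 1) * N := by ring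
      rw [this, pow_add, pow_succ]
      ring
    rw [h1, h2, sub_self, mul_zero]
  have hz : φ (φ z) + p z • b2 p φ b e N z = z := IID.iter hN z
  have hc : rk y (b2 p φ b e N z) (S x) = p z • b2 p φ b e N z := by
    rw [rk_apply, hSy, hfp]
  have ht : rk y κ (S x) = F • κ := by
    rw [rk_apply, hSy]
  have hJ1 : J ((qq p (φ (φ z)) (p z • b2 p φ b e N z)).comp (rk y (b2 p φ b e N z))) =
      (1 - p z ^ (N * N + 2 * N) * e z ^ (N + 1) * e (φ z)) • y := by
    rw [IID.Jrk J hJ, IID.claimq hp hd hN]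
  have hJ2 : J ((S x).comp (rk y κ)) = 0 := by
    rw [IID.Jrk J hJ, hSκ, zero_smul]
  have hmain : (e (φ z) * f' (y1, x)) • P (y1, x) +
      J ((qq p (φ (φ z)) (rk y (b2 p φ b e N z) (S x))).comp (rk y (b2 p φ b e N z))) +
      (rk y κ (S x) - J ((S x).comp (rk y κ))) = y := by
    rw [hc, ht, hJ1, hJ2, hf'y1, sub_zero, ← hfp, hκe]
    have h1 : F • (e (φ z) • ((F ^ (N * N + 2 * N - 1) * e z ^ (N + 1)) • y -
        (e z * F ^ N) • P (y1, x))) =
        (F ^ (N * N + 2 * N) * e z ^ (N + 1) * e (φ z)) • y -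
        (e (φ z) * (e z * F ^ (N + 1))) • P (y1, x) := by
      rw [smul_sub, smul_sub, smul_smul, smul_smul, smul_smul, smul_smul]
      congr 1
      · congr 1
        rw [← hpw]
        ring
      · congr 1
        rw [pow_succ]
        ring
    rw [h1, sub_smul, one_smul]
    abel
  have hz2 : φ (φ z) + rk y (b2 p φ b e N z) (S x) = z := by
    rw [hc]
    exact hz
  exact Prod.ext (Prod.ext hmain rfl) hz2

end Pool.Agent.Work.MP_e4a69c_an.DZ
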