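import Pool.Agent.Work.MP_e4a69c_an.DZ.Stmts

/-! MP_e4a69c_an, block DZ, item MT: `τ` maps `{F' = 0} × W0` to `{F = 0}`. -/

set_option autoImplicit false

namespace Pool.Agent.Work.MP_e4a69c_an.DZ

open scoped Manifold ContDiff Topology
open Pool.Agent.Work.MP_e4a69c_an.SU Pool.Agent.Work.MP_e4a69c_an.ML

theorem pr_MT : StMT := by
  intro E E' X B _ _ _ _ _ _ _ _ _ _ J S f f' P p φ b e N hJ hS hf' hp hN v u hv
  have hv' : f' v.1 = p v.2 := sub_eq_zero.mp hv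
  have h1 : ∀ y, f (y, v.1.2) = S v.1.2 y := fun y => (hS v.1.2 y).symm
  have h2 := (aQH B p hp).1 (φ v.2) (u.1 (S v.1.2))
  have h3 : p (φ v.2) = p v.2 ^ (N + 1) * e v.2 := hN.pow v.2
  have h4 : f' v.1 ^ N = S v.1.2 (P v.1) := by
    rw [← h1]
    exact hf' v.1.1 v.1.2
  show f (((e v.2 * f' v.1) • P v.1 +
      J ((qq p (φ v.2) (u.1 (S v.1.2))).comp u.1) +
      (u.2 (S v.1.2) - J ((S v.1.2).comp u.2))), v.1.2) -
    p (φ v.2 + u.1 (S v.1.2)) = 0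
  rw [h1, map_add, map_add, map_sub, map_smul, hJ, hJ, smul_eq_mul]
  have h5 : ((qq p (φ v.2) (u.1 (S v.1.2))).comp u.1) (S v.1.2) =
      qq p (φ v.2) (u.1 (S v.1.2)) (u.1 (S v.1.2)) := rfl
  have h6 : ((S v.1.2).comp u.2) (S v.1.2) = S v.1.2 (u.2 (S v.1.2)) := rfl
  rw [h5, h6, h2, ← h4, hv', h3]
  ring

end Pool.Agent.Work.MP_e4a69c_an.DZ
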