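import Pool.Agent.Work.MP_e4a69c_an.DZ.Stmts

/-! Item NW: Newton maps of every order. -/

set_option autoImplicit false

namespace Pool.Agent.Work.MP_e4a69c_an.DZ

open scoped Manifold ContDiff Topology
open Pool.Agent.Work.MP_e4a69c_an.SU Pool.Agent.Work.MP_e4a69c_an.ML

namespace INW

/-- the Newton map of order two -/
theorem two (B : Type) [NormedAddCommGroup B] [NormedSpace ℂ B] [FiniteDimensional ℂ B]
    (p : B → ℂ) (hp : Differentiable ℂ p) (a : B → ℂ) (v : B → B) (ha : Differentiable ℂ a)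
    (hv : Differentiable ℂ v) (hav : ∀ z, a z * p z + fderiv ℂ p z (v z) = 1) :
    ∃ e : B → ℂ, Newt p 2 (fun z => z - p z • v z) v e := by
  have hs : ∀ z, p z = 0 → fderiv ℂ p z ≠ 0 := by
    intro z hz h0
    have := hav z
    rw [hz, h0, mul_zero, zero_add] at this
    exact zero_ne_one this
  obtain ⟨q1, q2, -⟩ := aQH B p hp
  have hh : Differentiable ℂ (fun z => -(p z • v z)) := (hp.smul hv).neg
  have hq : Differentiable ℂ (fun z => qq p z (-(p z • v z))) :=
    (aQD B p hp).comp (differentiable_id.prodMk hh)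
  have hc : Differentiable ℂ (fun z => qq p z (-(p z • v z)) (v z)) := hq.clm_apply hv
  have hf : Differentiable ℂ
      (fun z => qq p z (-(p z • v z)) (v z) - (1 - a z * p z)) :=
    hc.sub ((differentiable_const _).sub (ha.mul hp))
  obtain ⟨d, hd, hd2⟩ := aGD B p (fun z => qq p z (-(p z • v z)) (v z) - (1 - a z * p z)) hp hf hs
    (by
      intro z hz
      show qq p z (-(p z • v z)) (v z) - (1 - a z * p z) = 0
      rw [hz, zero_smul, neg_zero, q2, mul_zero, sub_zero]
      have := hav z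
      rw [hz, mul_zero, zero_add] at this
      rw [this, sub_self])
  refine ⟨fun z => a z - d z, differentiable_id.sub (hp.smul hv), hv, ha.sub hd,
    fun z => rfl, fun z => ?_⟩
  have h1 := q1 z (-(p z • v z))
  have h2 := hd2 z
  have h3 : qq p z (-(p z • v z)) (-(p z • v z)) = -(p z * qq p z (-(p z • v z)) (v z)) := by
    rw [map_neg, map_smul, smul_eq_mul]
  rw [h3] at h1
  show p (z - p z • v z) = p z ^ 2 * (a z - d z)
  have h4 : z - p z • v z = z + -(p z • v z) := sub_eq_add_neg _ _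
  rw [h4]
  have h5 : qq p z (-(p z • v z)) (v z) = 1 - a z * p z + d z * p z := by
    have h2' : qq p z (-(p z • v z)) (v z) - (1 - a z * p z) = d z * p z := h2
    rw [← h2']
    ring
  rw [h5] at h1
  have h6 : p (z + -(p z • v z)) = p z + -(p z * (1 - a z * p z + d z * p z)) := by
    rw [h1]
    ring
  rw [h6]
  ring

/-- doubling -/
theorem dbl (B : Type) [NormedAddCommGroup B] [NormedSpace ℂ B]
    (p : B → ℂ) (hp : Differentiable ℂ p) (v : B → B) (e2 : B → ℂ)
    (h2 : Newt p 2 (fun z => z - p z • v z) v e2) (N : ℕ) (φ b : B → B) (e : B → ℂ)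
    (h : Newt p (N + 1) φ b e) : ∃ (φ' b' : B → B) (e' : B → ℂ),
      Newt p (2 * (N + 1)) φ' b' e' := by
  refine ⟨fun z => φ z - p (φ z) • v (φ z), fun z => b z + (p z ^ N * e z) • v (φ z),
    fun z => e z ^ 2 * e2 (φ z), ?_, ?_, ?_, ?_, ?_⟩
  · exact h.hφ.sub ((hp.comp h.hφ).smul (h2.hb.comp h.hφ))
  · exact h.hb.add (((hp.pow N).mul h.he).smul (h2.hb.comp h.hφ))
  · exact (h.he.pow 2).mul (h2.he.comp h.hφ)
  · intro z
    show φ z - p (φ z) • v (φ z) = z - p z • (b z + (p z ^ N * e z) • v (φ z))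
    rw [h.pow z, smul_add, smul_smul]
    have e1 : φ z = z - p z • b z := h.eq z
    have e3 : p z ^ (N + 1) * e z = p z * (p z ^ N * e z) := by ring
    rw [e3]
    calc φ z - (p z * (p z ^ N * e z)) • v (φ z)
        = (z - p z • b z) - (p z * (p z ^ N * e z)) • v (φ z) := by rw [← e1]
      _ = z - (p z • b z + (p z * (p z ^ N * e z)) • v (φ z)) := by abel
  · intro z
    show p (φ z - p (φ z) • v (φ z)) = p z ^ (2 * (N + 1)) * (e z ^ 2 * e2 (φ z))
    have e1 : p (φ z - p (φ z) • v (φ z)) = p (φ z) ^ 2 * e2 (φ z) := h2.pow (φ z)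
    rw [e1, h.pow z]
    ring

theorem one (B : Type) [NormedAddCommGroup B] [NormedSpace ℂ B]
    (p : B → ℂ) : Newt p 1 (fun z => z) (fun _ => 0) (fun _ => 1) := by
  refine ⟨differentiable_id, differentiable_const _, differentiable_const _, ?_, ?_⟩
  · intro z
    rw [smul_zero, sub_zero]
  · intro z
    rw [pow_one, mul_one]

end INW

theorem pr_NW : StNW := by
  intro B _ _ _ p hp hB n
  obtain ⟨a, v, ha, hv, hav⟩ := hB
  obtain ⟨e2, h2⟩ := INW.two B p hp a v ha hv hav
  have key : ∀ k : ℕ, ∃ (φ b : B → B) (e : B → ℂ), Newt p (2 ^ k) φ b e := by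
    intro k
    induction k with
    | zero => exact ⟨_, _, _, INW.one B p⟩
    | succ k ih =>
      obtain ⟨φ, b, e, h⟩ := ih
      obtain ⟨N, hN⟩ : ∃ N, 2 ^ k = N + 1 :=
        ⟨2 ^ k - 1, by have : 1 ≤ 2 ^ k := Nat.one_le_two_pow; omega⟩
      rw [hN] at h
      obtain ⟨φ', b', e', h'⟩ := INW.dbl B p hp v e2 h2 N φ b e h
      refine ⟨φ', b', e', ?_⟩
      have e3 : 2 ^ (k + 1) = 2 * (N + 1) := by rw [← hN]; ring
      rw [e3]
      exact h'
  obtain ⟨φ, b, e, h⟩ := key n
  have hn : n ≤ 2 ^ n := Nat.lt_two_pow_self.le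
  refine ⟨φ, b, fun z => p z ^ (2 ^ n - n) * e z, h.hφ, h.hb, (hp.pow _).mul h.he, h.eq,
    fun z => ?_⟩
  show p (φ z) = p z ^ n * (p z ^ (2 ^ n - n) * e z)
  rw [h.pow z, ← mul_assoc, ← pow_add, Nat.add_sub_cancel' hn]

end Pool.Agent.Work.MP_e4a69c_an.DZ
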