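import Pool.Agent.Work.MP_e4a69c_an.DZ.Stmts

/-! Item NZ of theorem DZ (MP_e4a69c_an): from the fixed locus to `{p = 0}`. -/

set_option autoImplicit false

namespace Pool.Agent.Work.MP_e4a69c_an.DZ

open scoped Manifold ContDiff Topology
open Pool.Agent.Work.MP_e4a69c_an.SU Pool.Agent.Work.MP_e4a69c_an.ML

theorem pr_NZ (hSD : StSD) : StNZ := by
  intro 𝔤 _ _ G _ _ _ _ E X B _ _ _ _ _ _ ρE ρX f p hL hp hB hf hG
  obtain ⟨W, i1, i2, i3, σ, s, hs1, hs2, hs3, hs4, hs5⟩ := hG
  obtain ⟨_, hD, _, _⟩ := hSD E X B f p hL.hol hL.smul hp hB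
  have hf0 : ∀ x : X, f ((0 : E), x) = 0 := by
    intro x
    have h := hL.smul 0 (0 : E) x
    rw [zero_smul, zero_mul] at h
    exact h
  have hfix : ∀ (g : G) (z : B), (zMod ρE ρX B).act g (((0 : E), (0 : X)), z) = ((0, 0), z) := by
    intro g z
    rw [zMod_act]
    refine Prod.ext (Prod.ext ?_ ?_) rfl
    · exact map_zero _
    · exact map_zero _
  have hmem : ∀ z, p z = 0 → (((0 : E), (0 : X)), z) ∈
      ({v | fz f p v = 0} ∩ {v | ∀ n ∈ (⊤ : Subgroup G), (zMod ρE ρX B).act n v = v} :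
        Set ((E × X) × B)) := by
    intro z hz
    refine ⟨?_, ?_⟩
    · show f ((0 : E), (0 : X)) - p z = 0
      rw [hf0, hz, sub_zero]
    · intro n _
      exact hfix n z
  have hdiff : Differentiable ℂ (fun q : B × W => s ((((0 : E), (0 : X)), q.1), q.2)) := by
    refine hs1.comp ?_
    exact ((differentiable_const _).prodMk differentiable_fst).prodMk differentiable_snd
  refine ⟨W, i1, i2, i3, σ, ⟨fun q => (s (((0, 0), q.1), q.2)).2, ?_, ?_, ?_, ?_⟩, ?_⟩
  · exact hdiff.snd
  · intro z hz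
    show (s (((0, 0), z), 0)).2 = z
    rw [hs2 _ (hmem z hz)]
  · intro z w hz
    show p (s (((0, 0), z), w)).2 = 0
    obtain ⟨h1, h2⟩ := hs3 _ (hmem z hz) w
    have h3 : f (s (((0, 0), z), w)).1 = 0 := by
      apply hf (s (((0, 0), z), w)).1.1 (s (((0, 0), z), w)).1.2
      · intro g
        have h4 := h2 g (Subgroup.mem_top g)
        rw [zMod_act] at h4
        exact congrArg (fun v : (E × X) × B => v.1.1) h4
      · intro g
        have h4 := h2 g (Subgroup.mem_top g)
        rw [zMod_act] at h4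
        exact congrArg (fun v : (E × X) × B => v.1.2) h4
    have h5 : f (s (((0, 0), z), w)).1 - p (s (((0, 0), z), w)).2 = 0 := h1
    rw [h3, zero_sub, neg_eq_zero] at h5
    exact h5
  · intro g z w
    show (s (((0, 0), z), σ.act g w)).2 = (s (((0, 0), z), w)).2
    have h1 := hs4 g ((0, 0), z) w
    rw [hfix] at h1
    rw [h1]
    rfl
  · intro z hz b hb
    have h1 : (((0 : E), (0 : X)), b) ∈
        ({τ | fderiv ℂ (fz f p) (((0 : E), (0 : X)), z) τ = 0} ∩
          {τ | ∀ n ∈ (⊤ : Subgroup G), (zMod ρE ρX B).act n τ = τ} : Set ((E × X) × B)) := by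
      refine ⟨?_, ?_⟩
      · show fderiv ℂ (fz f p) (((0 : E), (0 : X)), z) (((0 : E), (0 : X)), b) = 0
        rw [hD]
        show fderiv ℂ f ((0 : E), (0 : X)) (((0 : E), (0 : X)) : E × X) - fderiv ℂ p z b = 0
        rw [hb, sub_zero]
        exact map_zero _
      · intro n _
        exact hfix n b
    obtain ⟨w, hw⟩ := hs5 _ (hmem z hz) _ h1
    refine ⟨w, ?_⟩
    show fderiv ℂ (fun w : W => (s ((((0 : E), (0 : X)), z), w)).2) 0 w = b
    have h2 : DifferentiableAt ℂ (fun w : W => s ((((0 : E), (0 : X)), z), w)) 0 := by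
      have h3 : Differentiable ℂ (fun w : W => s ((((0 : E), (0 : X)), z), w)) :=
        hs1.comp ((differentiable_const _).prodMk differentiable_id)
      exact h3 0
    rw [(h2.hasFDerivAt.snd).fderiv]
    show (fderiv ℂ (fun w : W => s ((((0 : E), (0 : X)), z), w)) 0 w).2 = b
    rw [hw]

end Pool.Agent.Work.MP_e4a69c_an.DZ
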