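import Pool.Agent.Work.MP_e4a69c_an.DZ.Stmts

set_option autoImplicit false

namespace Pool.Agent.Work.MP_e4a69c_an.DZ

open scoped Manifold ContDiff Topology
open Pool.Agent.Work.MP_e4a69c_an.SU Pool.Agent.Work.MP_e4a69c_an.ML

theorem pr_RT (hTL : StTL) : StRT := by
  intro 𝔤 _ _ G _ _ _ V V' W0 _ _ _ _ _ _ _ _ _ ρ ρ' ρ0 F F' S K T hF hF' hS hK hT hsm hSe hKe
    hTe hSF hTF hTS hell
  obtain ⟨W, iW1, iW2, iW3, σ, s', hdom⟩ := hell
  refine ⟨W × W0, inferInstance, inferInstance, inferInstance, σ.prod ρ0,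
    { s := fun q => T (s'.s (S q.1, q.2.1), K q.1 + q.2.2)
      hol := ?_
      zero := ?_
      maps := ?_
      equi := ?_ }, ?_⟩
  · exact hT.comp ((s'.hol.comp ((hS.comp differentiable_fst).prodMk
      (differentiable_fst.comp differentiable_snd))).prodMk
      ((hK.comp differentiable_fst).add (differentiable_snd.comp differentiable_snd)))
  · intro y hy
    show T (s'.s (S y, 0), K y + 0) = y
    rw [s'.zero (S y) (hSF y hy), add_zero]
    exact hTS y hy
  · intro y w hy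
    exact hTF _ _ (s'.maps _ _ (hSF y hy))
  · intro g y w
    show T (s'.s (S (ρ.act g y), σ.act g w.1), K (ρ.act g y) + ρ0.act g w.2) =
      ρ.act g (T (s'.s (S y, w.1), K y + w.2))
    rw [hSe, hKe, s'.equi, ← map_add, hTe]
  · intro y hy τ hτ
    have e1 : fderiv ℂ (fun v => F' (S v)) y τ = 0 := by
      refine hTL V ℂ F (fun v => F' (S v)) hF (hF'.comp hS) hsm (fun v hv => hSF v hv) y hy τ hτ
    have e2 : fderiv ℂ F' (S y) (fderiv ℂ S y τ) = 0 := by
      have h1 : HasFDerivAt (fun v => F' (S v)) ((fderiv ℂ F' (S y)).comp (fderiv ℂ S y)) y :=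
        (hF' (S y)).hasFDerivAt.comp y (hS y).hasFDerivAt
      rw [h1.fderiv] at e1
      exact e1
    obtain ⟨w, hw⟩ := hdom (S y) (hSF y hy) _ e2
    have e3 : fderiv ℂ T (S y, K y) (fderiv ℂ S y τ, fderiv ℂ K y τ) = τ := by
      have h2 : HasFDerivAt (fun v => T (S v, K v) - v)
          ((fderiv ℂ T (S y, K y)).comp ((fderiv ℂ S y).prod (fderiv ℂ K y)) -
            ContinuousLinearMap.id ℂ V) y :=
        ((hT (S y, K y)).hasFDerivAt.comp y
          ((hS y).hasFDerivAt.prodMk (hK y).hasFDerivAt)).sub (hasFDerivAt_id y)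
      have h3 := hTL V V F (fun v => T (S v, K v) - v) hF
        ((hT.comp (hS.prodMk hK)).sub differentiable_id) hsm
        (fun v hv => by rw [hTS v hv, sub_self]) y hy τ hτ
      rw [h2.fderiv] at h3
      have h4 : fderiv ℂ T (S y, K y) (fderiv ℂ S y τ, fderiv ℂ K y τ) - τ = 0 := h3
      exact sub_eq_zero.1 h4
    refine ⟨(w, fderiv ℂ K y τ), ?_⟩
    show fderiv ℂ (fun q : W × W0 => T (s'.s (S y, q.1), K y + q.2)) 0 (w, fderiv ℂ K y τ) = τ
    have hd1 : DifferentiableAt ℂ (fun w : W => s'.s (S y, w)) 0 :=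
      (s'.hol.comp ((differentiable_const (S y)).prodMk differentiable_id)) 0
    have h5 : HasFDerivAt (fun q : W × W0 => s'.s (S y, q.1))
        ((fderiv ℂ (fun w : W => s'.s (S y, w)) 0).comp (ContinuousLinearMap.fst ℂ W W0)) 0 :=
      HasFDerivAt.comp (g := fun w : W => s'.s (S y, w)) (f := fun q : W × W0 => q.1) 0
        hd1.hasFDerivAt hasFDerivAt_fst
    have h6 : HasFDerivAt (fun q : W × W0 => K y + q.2) (ContinuousLinearMap.snd ℂ W W0) 0 :=
      hasFDerivAt_snd.const_add (K y)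
    have he : (s'.s (S y, (0 : W × W0).1), K y + (0 : W × W0).2) = (S y, K y) := by
      have : s'.s (S y, (0 : W × W0).1) = S y := s'.zero (S y) (hSF y hy)
      rw [this, Prod.snd_zero, add_zero]
    have h7 : HasFDerivAt T (fderiv ℂ T (S y, K y))
        (s'.s (S y, (0 : W × W0).1), K y + (0 : W × W0).2) := by
      rw [he]
      exact (hT (S y, K y)).hasFDerivAt
    have h8 : HasFDerivAt (fun q : W × W0 => T (s'.s (S y, q.1), K y + q.2))
        ((fderiv ℂ T (S y, K y)).comp (((fderiv ℂ (fun w : W => s'.s (S y, w)) 0).comp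
          (ContinuousLinearMap.fst ℂ W W0)).prod (ContinuousLinearMap.snd ℂ W W0))) 0 :=
      HasFDerivAt.comp (g := T) (f := fun q : W × W0 => (s'.s (S y, q.1), K y + q.2)) 0
        h7 (h5.prodMk h6)
    rw [h8.fderiv]
    show fderiv ℂ T (S y, K y) (fderiv ℂ (fun w : W => s'.s (S y, w)) 0 w, fderiv ℂ K y τ) = τ
    rw [hw]
    exact e3

end Pool.Agent.Work.MP_e4a69c_an.DZ
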