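import Pool.Agent.Work.MP_e4a69c_an.DZ.Stmts

/-! Item [e4a69c DZ SD] (helper51): derivative and smoothness of `{f(y,x) = p(z)}`. -/

set_option autoImplicit false

namespace Pool.Agent.Work.MP_e4a69c_an.DZ

open scoped Manifold ContDiff Topology
open Pool.Agent.Work.MP_e4a69c_an.SU Pool.Agent.Work.MP_e4a69c_an.ML

namespace ISD

theorem hd {E X B : Type} [NormedAddCommGroup E] [NormedSpace ℂ E]
    [NormedAddCommGroup X] [NormedSpace ℂ X] [NormedAddCommGroup B] [NormedSpace ℂ B]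
    {f : E × X → ℂ} {p : B → ℂ} (hf : Differentiable ℂ f) (hp : Differentiable ℂ p)
    (v : (E × X) × B) :
    HasFDerivAt (fz f p) ((fderiv ℂ f v.1).comp (ContinuousLinearMap.fst ℂ (E × X) B) -
      (fderiv ℂ p v.2).comp (ContinuousLinearMap.snd ℂ (E × X) B)) v :=
  ((hf v.1).hasFDerivAt.comp v hasFDerivAt_fst).sub ((hp v.2).hasFDerivAt.comp v hasFDerivAt_snd)

theorem bez {B : Type} [NormedAddCommGroup B] [NormedSpace ℂ B] {p : B → ℂ} (h : Bez p) (z : B)
    (h0 : fderiv ℂ p z = 0) : p z ≠ 0 := by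
  obtain ⟨a, v, _, _, h1⟩ := h
  intro hz
  have h2 := h1 z
  rw [h0, hz, mul_zero, zero_add] at h2
  exact zero_ne_one h2

theorem euler {E X : Type} [NormedAddCommGroup E] [NormedSpace ℂ E]
    [NormedAddCommGroup X] [NormedSpace ℂ X] {f : E × X → ℂ} (hf : Differentiable ℂ f)
    (hs : ∀ (c : ℂ) y x, f (c • y, x) = c * f (y, x)) (y : E) (x : X) :
    fderiv ℂ f (y, x) (y, 0) = f (y, x) := by
  have h1 : HasDerivAt (fun c : ℂ => ((c • y, x) : E × X)) ((1 : ℂ) • y, 0) 1 :=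
    ((hasDerivAt_id (1 : ℂ)).smul_const y).prodMk (hasDerivAt_const (1 : ℂ) x)
  have h2 : HasFDerivAt f (fderiv ℂ f (y, x)) (((1 : ℂ) • y, x) : E × X) := by
    rw [one_smul]
    exact (hf (y, x)).hasFDerivAt
  have h3 := h2.comp_hasDerivAt (1 : ℂ) h1
  have h4 : HasDerivAt (fun c : ℂ => c * f (y, x)) (1 * f (y, x)) 1 :=
    (hasDerivAt_id (1 : ℂ)).mul_const (f (y, x))
  have h5 : (f ∘ fun c : ℂ => ((c • y, x) : E × X)) = fun c : ℂ => c * f (y, x) := by
    funext c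
    exact hs c y x
  rw [h5] at h3
  have h6 := h3.unique h4
  rw [one_smul, one_mul] at h6
  exact h6

end ISD

theorem pr_SD : StSD := by
  intro E X B _ _ _ _ _ _ f p hf hs hp hb
  have hfd : ∀ v τ, fderiv ℂ (fz f p) v τ = fderiv ℂ f v.1 τ.1 - fderiv ℂ p v.2 τ.2 := by
    intro v τ
    rw [(ISD.hd hf hp v).fderiv]
    rfl
  refine ⟨fun v => (ISD.hd hf hp v).differentiableAt, hfd, ?_, fun z hz h0 => ISD.bez hb z h0 hz⟩
  intro v hv h0
  have h1 : fderiv ℂ p v.2 = 0 := by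
    ext b
    have h := hfd v (0, b)
    rw [h0] at h
    simp only [map_zero, zero_sub] at h
    have h2 : (0 : ℂ) = - fderiv ℂ p v.2 b := h
    show fderiv ℂ p v.2 b = 0
    linear_combination h2
  have h3 : fderiv ℂ f v.1 (v.1.1, 0) = 0 := by
    have h := hfd v ((v.1.1, 0), 0)
    rw [h0] at h
    simp only [map_zero, sub_zero] at h
    exact h.symm
  have h4 := ISD.euler hf hs v.1.1 v.1.2
  have h5 : p v.2 ≠ 0 := ISD.bez hb v.2 h1
  have h6 : f v.1 - p v.2 = 0 := hv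
  apply h5
  have h7 : fderiv ℂ f v.1 (v.1.1, 0) = f v.1 := h4
  rw [h3] at h7
  rw [← h7, zero_sub, neg_eq_zero] at h6
  exact h6

end Pool.Agent.Work.MP_e4a69c_an.DZ
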