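import Pool.Agent.Work.MP_e4a69c_an.DZ.Stmts

/-! Item TL of the block DZ: the tangent lemma. -/

set_option autoImplicit false

namespace Pool.Agent.Work.MP_e4a69c_an.DZ

open scoped Manifold ContDiff Topology
open Pool.Agent.Work.MP_e4a69c_an.SU Pool.Agent.Work.MP_e4a69c_an.ML

theorem pr_TL : StTL := by
  intro V H _ _ _ _ _ F D hF hD hs hz v hv τ hτ
  by_contra hne
  obtain ⟨ℓ, hℓ⟩ := SeparatingDual.exists_ne_zero (R := ℂ) hne
  obtain ⟨a, ha, hae⟩ := aGD V F (fun v => ℓ (D v)) hF (ℓ.differentiable.comp hD) hs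
    (fun z h => by simp [hz z h])
  apply hℓ
  have h0 : HasFDerivAt (fun v => ℓ (D v)) (ℓ.comp (fderiv ℂ D v)) v :=
    ℓ.hasFDerivAt.comp v (hD v).hasFDerivAt
  have h1 : fderiv ℂ (fun v => ℓ (D v)) v τ = ℓ (fderiv ℂ D v τ) := by
    rw [h0.fderiv]; rfl
  have h2 : HasFDerivAt (fun v => a v * F v) (a v • fderiv ℂ F v + F v • fderiv ℂ a v) v :=
    (ha v).hasFDerivAt.mul (hF v).hasFDerivAt
  have h3 : (fun v => ℓ (D v)) = fun v => a v * F v := funext hae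
  rw [← h1, h3, h2.fderiv]
  simp [hτ, hv]

end Pool.Agent.Work.MP_e4a69c_an.DZ
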