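import Pool.Agent.Work.MP_e4a69c_an.DZ.Stmts

/-! Item ZS of the block DZ: the zero set principle. -/

set_option autoImplicit false

namespace Pool.Agent.Work.MP_e4a69c_an.DZ

open scoped Manifold ContDiff Topology
open Pool.Agent.Work.MP_e4a69c_an.SU Pool.Agent.Work.MP_e4a69c_an.ML

namespace IZS

section

variable {𝔤 : Type} [NormedAddCommGroup 𝔤] [NormedSpace ℂ 𝔤]
variable {G : Type} [TopologicalSpace G] [ChartedSpace 𝔤 G] [Group G]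
variable {E E' X : Type} [NormedAddCommGroup E] [NormedSpace ℂ E]
  [NormedAddCommGroup E'] [NormedSpace ℂ E']
  [NormedAddCommGroup X] [NormedSpace ℂ X]

/-- raising the exponent -/
theorem up (ρE : GMod 𝔤 G E) (ρX : GMod 𝔤 G X) (ρE' : GMod 𝔤 G E') (f : E × X → ℂ)
    (f' : E' × X → ℂ) (n N : ℕ) (hnN : n ≤ N) (Q : E × X → E')
    (hf : LinInv ρE ρX f) (hf' : LinInv ρE' ρX f') (h : Dmn ρE ρX ρE' f f' n Q) :
    Dmn ρE ρX ρE' f f' N (fun q => (f q ^ (N - n)) • Q q) := by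
  refine ⟨(hf.hol.pow _).smul h.hol, ?_, ?_⟩
  · intro g y x
    show (f (ρE.act g y, ρX.act g x) ^ (N - n)) • Q (ρE.act g y, ρX.act g x) =
      ρE'.act g ((f (y, x) ^ (N - n)) • Q (y, x))
    rw [hf.inv, h.equi, map_smul]
  · intro y x
    show f (y, x) ^ N = f' ((f (y, x) ^ (N - n)) • Q (y, x), x)
    rw [hf'.smul, ← h.pow, ← pow_add]
    congr 1
    omega

end

end IZS

theorem pr_ZS (hFX : StFX) (hNW : StNW) (hRT : StRT) (hHT : StHT) (hET : StET) (hMT : StMT)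
    (hHS : StHS) (hID : StID) (hSD : StSD) : StZS := by
  intro 𝔤 _ _ G _ _ _ _ E E' X B _ _ _ _ _ _ _ _ _ _ _ _ ρE ρE' ρX f f' p n m Q0 P0 hf hf' hQ0
    hP0 hp hb hell
  obtain ⟨N, hN1, hnN, hmN⟩ : ∃ N : ℕ, 1 ≤ N ∧ n ≤ N ∧ m ≤ N :=
    ⟨n + m + 1, by omega, by omega, by omega⟩
  have hQ := IZS.up ρE ρX ρE' f f' n N hnN Q0 hf hf' hQ0
  have hP := IZS.up ρE' ρX ρE f' f m N hmN P0 hf' hf hP0
  generalize (fun q => (f q ^ (N - n)) • Q0 q) = Q at hQ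
  generalize (fun q => (f' q ^ (N - m)) • P0 q) = P at hP
  obtain ⟨J, hJ⟩ := pr_BD E
  obtain ⟨S, hS, hSf⟩ := hFX E X f hf.hol hf.add hf.smul
  obtain ⟨φ, b, e, hN⟩ := hNW B p hp hb (N + 1)
  obtain ⟨hF1, hF2, hF3, hF4⟩ := hSD E X B f p hf.hol hf.smul hp hb
  obtain ⟨hF1', _, _, _⟩ := hSD E' X B f' p hf'.hol hf'.smul hp hb
  have hSe : ∀ g x, S (ρX.act g x) = (ρE.hom (GMod.triv ℂ)).act g (S x) := by
    intro g x
    apply ContinuousLinearMap.ext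
    intro y
    show S (ρX.act g x) y = S x (ρE.act g⁻¹ y)
    rw [hSf, hSf]
    have h1 := hf.inv g⁻¹ y (ρX.act g x)
    rw [← h1]
    congr 2
    rw [← GMod.act_mul]
    simp
  obtain ⟨h1, h2, h3, h4, h5⟩ := hHS 𝔤 G E E' X B ρE ρE' ρX f f' Q P p φ b e N hf hf' hQ hP hp hN
  refine hRT 𝔤 G ((E × X) × B) ((E' × X) × B) (((E →L[ℂ] ℂ) →L[ℂ] B) × ((E →L[ℂ] ℂ) →L[ℂ] E))
    (zMod ρE ρX B) (zMod ρE' ρX B) (wMod ρE B) (fz f p) (fz f' p) (sg f Q φ e)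
    (kz f Q P p φ b e N) (tz J S f' P p φ e) hF1 hF1' h1 h2
    (hHT E E' X B J S f' P p φ e hS hf'.hol hP.hol hp hN.hφ hN.he) hF3 h3 h4 ?_ h5 ?_ ?_ hell
  · exact hET 𝔤 G E E' X B ρE ρE' ρX J S f' P p φ e hJ hSe hf'.inv hP.equi
  · exact hMT E E' X B J S f f' P p φ b e N hJ hSf hP.pow hp hN
  · exact hID E E' X B J S f f' Q P p φ b e N hJ hSf hf'.smul hQ.pow hP.pow hN1 hp hF4 hN

end Pool.Agent.Work.MP_e4a69c_an.DZ
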