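import Pool.Agent.Work.MP_e4a69c_an.DZ.Main
import Pool.Agent.Work.MP_e4a69c_an.AF.Final
import Pool.Agent.Work.MP_e4a69c_an.DZ.I_FX
import Pool.Agent.Work.MP_e4a69c_an.DZ.I_NW
import Pool.Agent.Work.MP_e4a69c_an.DZ.I_TL
import Pool.Agent.Work.MP_e4a69c_an.DZ.I_RT
import Pool.Agent.Work.MP_e4a69c_an.DZ.I_HT
import Pool.Agent.Work.MP_e4a69c_an.DZ.I_ET
import Pool.Agent.Work.MP_e4a69c_an.DZ.I_MT
import Pool.Agent.Work.MP_e4a69c_an.DZ.I_HS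
import Pool.Agent.Work.MP_e4a69c_an.DZ.I_ID
import Pool.Agent.Work.MP_e4a69c_an.DZ.I_SD
import Pool.Agent.Work.MP_e4a69c_an.DZ.I_ZS
import Pool.Agent.Work.MP_e4a69c_an.DZ.I_NZ

/-! Assembly of theorem DZ. -/

set_option autoImplicit false

namespace Pool.Agent.Work.MP_e4a69c_an.DZ

open scoped Manifold ContDiff Topology
open Pool.Agent.Work.MP_e4a69c_an.SU Pool.Agent.Work.MP_e4a69c_an.ML

theorem dRT : StRT := pr_RT pr_TL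
theorem dZS : StZS := pr_ZS pr_FX pr_NW dRT pr_HT pr_ET pr_MT pr_HS pr_ID pr_SD
theorem dMW : StMW := pr_MW (pr_MV AF.fAA AF.fOF)
theorem dNZ : StNZ := pr_NZ pr_SD

theorem main :
    ∀ (𝔤 : Type) [NormedAddCommGroup 𝔤] [NormedSpace ℂ 𝔤]
      (G : Type) [TopologicalSpace G] [ChartedSpace 𝔤 G] [Group G] [LieGroup 𝓘(ℂ, 𝔤) ω G]
      (ι : Type) [Fintype ι] [DecidableEq ι] (M : ι → Type)
      [∀ i, NormedAddCommGroup (M i)] [∀ i, NormedSpace ℂ (M i)]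
      [∀ i, FiniteDimensional ℂ (M i)]
      (E E' B : Type) [NormedAddCommGroup E] [NormedSpace ℂ E] [FiniteDimensional ℂ E]
      [NormedAddCommGroup E'] [NormedSpace ℂ E'] [FiniteDimensional ℂ E']
      [NormedAddCommGroup B] [NormedSpace ℂ B] [FiniteDimensional ℂ B]
      (ρ : ∀ i, GMod 𝔤 G (M i)) (ρE : GMod 𝔤 G E) (ρE' : GMod 𝔤 G E') (ρB : GMod 𝔤 G B)
      (ρV : GMod 𝔤 G ((E × (∀ i, M i)) × B)) (ρV' : GMod 𝔤 G ((E' × (∀ i, M i)) × B))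
      (f : E × (∀ i, M i) → ℂ) (f' : E' × (∀ i, M i) → ℂ) (p : B → ℂ),
      IsProdT ρE ρ ρB ρV → IsProdT ρE' ρ ρB ρV' → IsInv ρE ρ f → IsInv ρE' ρ f' →
      Below ρE ρE' ρ f f' → Below ρE' ρE ρ f' f → IsTBase ρB p →
      (∀ v ∈ YZ f p, TZ f p v ≠ Set.univ) ∧
      (EllZ ρV f p ↔ EllZ ρV' f' p) ∧
      (IsMultiAff f' → (EllC ρB p → EllZ ρV f p) ∧
        ∀ K : Subgroup G, IsCompactFormOf 𝔤 K ⊤ →
          (EllZ ρV f p ↔ EllZG ρV f p) ∧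
          (EllZ ρV f p ↔ (∃ q, (∀ g, act2 ρE ρ g q = q) ∧ f q ≠ 0) ∨ EllC ρB p)) :=
  mainOf dZS dMW dNZ pr_SD

end Pool.Agent.Work.MP_e4a69c_an.DZ
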