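import Pool.Agent.Work.MP_e4a69c_an.DZ.Stmts

/-! Item HS: the maps σ and κ. -/

set_option autoImplicit false
set_option maxSynthPendingDepth 3

namespace Pool.Agent.Work.MP_e4a69c_an.DZ

open scoped Manifold ContDiff Topology
open Pool.Agent.Work.MP_e4a69c_an.SU Pool.Agent.Work.MP_e4a69c_an.ML

namespace IHS

theorem rk_diff {V E H : Type} [NormedAddCommGroup V] [NormedSpace ℂ V]
    [NormedAddCommGroup E] [NormedSpace ℂ E] [NormedAddCommGroup H] [NormedSpace ℂ H]
    {y : V → E} {h : V → H} (hy : Differentiable ℂ y) (hh : Differentiable ℂ h) :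
    Differentiable ℂ (fun v => rk (y v) (h v)) := by
  let A : E →L[ℂ] ((E →L[ℂ] ℂ) →L[ℂ] ℂ) := ContinuousLinearMap.apply ℂ ℂ
  let S : ((E →L[ℂ] ℂ) →L[ℂ] ℂ) →L[ℂ] (H →L[ℂ] ((E →L[ℂ] ℂ) →L[ℂ] H)) :=
    ContinuousLinearMap.smulRightL ℂ (E →L[ℂ] ℂ) H
  have h0 : Differentiable ℂ (fun v => A (y v)) := A.differentiable.comp hy
  have h1 : Differentiable ℂ (fun v => S (A (y v))) := S.differentiable.comp h0
  have h2 : Differentiable ℂ (fun v => S (A (y v)) (h v)) := h1.clm_apply hh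
  exact h2

section

variable {𝔤 : Type} [NormedAddCommGroup 𝔤] [NormedSpace ℂ 𝔤]
variable {G : Type} [TopologicalSpace G] [ChartedSpace 𝔤 G] [Group G]
variable {E E' X B : Type} [NormedAddCommGroup E] [NormedSpace ℂ E]
  [NormedAddCommGroup E'] [NormedSpace ℂ E']
  [NormedAddCommGroup X] [NormedSpace ℂ X] [NormedAddCommGroup B] [NormedSpace ℂ B]

theorem sg_diff {f : E × X → ℂ} {Q : E × X → E'} {φ : B → B} {e : B → ℂ}
    (hf : Differentiable ℂ f) (hQ : Differentiable ℂ Q) (hφ : Differentiable ℂ φ)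
    (he : Differentiable ℂ e) :
    Differentiable ℂ (sg f Q φ e : (E × X) × B → (E' × X) × B) := by
  have e1 : Differentiable ℂ (fun v : (E × X) × B => e v.2) := he.comp differentiable_snd
  have f1 : Differentiable ℂ (fun v : (E × X) × B => f v.1) := hf.comp differentiable_fst
  have q1 : Differentiable ℂ (fun v : (E × X) × B => Q v.1) := hQ.comp differentiable_fst
  have x1 : Differentiable ℂ (fun v : (E × X) × B => v.1.2) :=
    differentiable_snd.comp differentiable_fst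
  have p1 : Differentiable ℂ (fun v : (E × X) × B => φ v.2) := hφ.comp differentiable_snd
  exact (((e1.mul f1).smul q1).prodMk x1).prodMk p1

theorem b2_diff {p : B → ℂ} {φ b : B → B} {e : B → ℂ} (N : ℕ) (hp : Differentiable ℂ p)
    (hφ : Differentiable ℂ φ) (hb : Differentiable ℂ b) (he : Differentiable ℂ e) :
    Differentiable ℂ (b2 p φ b e N) := by
  have h1 : Differentiable ℂ (fun z => p z ^ N * e z) := (hp.pow N).mul he
  exact hb.add (h1.smul (hb.comp hφ))

theorem kp_diff {f : E × X → ℂ} {Q : E × X → E'} {P : E' × X → E} {φ : B → B} {e : B → ℂ}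
    (N : ℕ) (hf : Differentiable ℂ f) (hQ : Differentiable ℂ Q) (hP : Differentiable ℂ P)
    (hφ : Differentiable ℂ φ) (he : Differentiable ℂ e) :
    Differentiable ℂ (kp f Q P φ e N) := by
  have e1 : Differentiable ℂ (fun v : (E × X) × B => e v.2) := he.comp differentiable_snd
  have e2 : Differentiable ℂ (fun v : (E × X) × B => e (φ v.2)) :=
    (he.comp hφ).comp differentiable_snd
  have f1 : Differentiable ℂ (fun v : (E × X) × B => f v.1) := hf.comp differentiable_fst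
  have q1 : Differentiable ℂ (fun v : (E × X) × B => Q v.1) := hQ.comp differentiable_fst
  have y1 : Differentiable ℂ (fun v : (E × X) × B => v.1.1) :=
    differentiable_fst.comp differentiable_fst
  have x1 : Differentiable ℂ (fun v : (E × X) × B => v.1.2) :=
    differentiable_snd.comp differentiable_fst
  have g1 : Differentiable ℂ (fun v : (E × X) × B => ((e v.2 * f v.1) • Q v.1, v.1.2)) :=
    ((e1.mul f1).smul q1).prodMk x1
  have g2 : Differentiable ℂ
      (fun v : (E × X) × B => P ((e v.2 * f v.1) • Q v.1, v.1.2)) := hP.comp g1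
  have t1 : Differentiable ℂ
      (fun v : (E × X) × B => (f v.1 ^ (N * N + 2 * N - 1) * e v.2 ^ (N + 1)) • v.1.1) :=
    ((f1.pow (N * N + 2 * N - 1)).mul (e1.pow (N + 1))).smul y1
  have t2 : Differentiable ℂ (fun v : (E × X) × B => (e v.2 * f v.1 ^ N) •
      P ((e v.2 * f v.1) • Q v.1, v.1.2)) := (e1.mul (f1.pow N)).smul g2
  exact e2.smul (t1.sub t2)

theorem kp_equi {ρE : GMod 𝔤 G E} {ρE' : GMod 𝔤 G E'} {ρX : GMod 𝔤 G X} {f : E × X → ℂ}
    {Q : E × X → E'} {P : E' × X → E} (φ : B → B) (e : B → ℂ) (N : ℕ)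
    (hf : ∀ g y x, f (ρE.act g y, ρX.act g x) = f (y, x))
    (hQ : ∀ g y x, Q (ρE.act g y, ρX.act g x) = ρE'.act g (Q (y, x)))
    (hP : ∀ g y x, P (ρE'.act g y, ρX.act g x) = ρE.act g (P (y, x))) (g : G)
    (v : (E × X) × B) :
    kp f Q P φ e N ((zMod ρE ρX B).act g v) = ρE.act g (kp f Q P φ e N v) := by
  obtain ⟨⟨y, x⟩, z⟩ := v
  simp only [zMod_act, kp, hf, hQ]
  have h1 : (e z * f (y, x)) • ρE'.act g (Q (y, x)) =
      ρE'.act g ((e z * f (y, x)) • Q (y, x)) := (map_smul (ρE'.act g) _ _).symm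
  rw [h1, hP, map_smul, map_sub, map_smul, map_smul]

end

end IHS

theorem pr_HS : StHS := by
  intro 𝔤 _ _ G _ _ _ _ E E' X B _ _ _ _ _ _ _ _ _ _ ρE ρE' ρX f f' Q P p φ b e N hf hf' hQ hP
    hp hN
  have y1 : Differentiable ℂ (fun v : (E × X) × B => v.1.1) :=
    differentiable_fst.comp differentiable_fst
  have k1 : Differentiable ℂ (fun v : (E × X) × B => b2 p φ b e N v.2) :=
    (IHS.b2_diff N hp hN.hφ hN.hb hN.he).comp differentiable_snd
  have k2 : Differentiable ℂ (fun v : (E × X) × B => kp f Q P φ e N v) :=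
    IHS.kp_diff N hf.hol hQ.hol hP.hol hN.hφ hN.he
  have r1 : Differentiable ℂ (fun v : (E × X) × B => rk v.1.1 (b2 p φ b e N v.2)) :=
    IHS.rk_diff y1 k1
  have r2 : Differentiable ℂ (fun v : (E × X) × B => rk v.1.1 (kp f Q P φ e N v)) :=
    IHS.rk_diff y1 k2
  have r3 : Differentiable ℂ (kz f Q P p φ b e N) := by
    unfold kz
    exact r1.prodMk r2
  refine ⟨IHS.sg_diff hf.hol hQ.hol hN.hφ hN.he, r3, ?_, ?_, ?_⟩
  · rintro g ⟨⟨y, x⟩, z⟩
    simp only [zMod_act, sg, hf.inv, hQ.equi]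
    rw [map_smul]
  · intro g v
    have hk := IHS.kp_equi (ρE := ρE) (ρE' := ρE') (ρX := ρX) φ e N hf.inv hQ.equi hP.equi g v
    refine Prod.ext ?_ ?_
    · apply ContinuousLinearMap.ext
      intro ζ
      show ζ (ρE.act g v.1.1) • b2 p φ b e N v.2 =
        ζ (ρE.act (g⁻¹)⁻¹ v.1.1) • b2 p φ b e N v.2
      rw [inv_inv]
    · apply ContinuousLinearMap.ext
      intro ζ
      show ζ (ρE.act g v.1.1) • kp f Q P φ e N ((zMod ρE ρX B).act g v) =
        ρE.act g (ζ (ρE.act (g⁻¹)⁻¹ v.1.1) • kp f Q P φ e N v)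
      rw [inv_inv, hk, map_smul]
  · rintro ⟨⟨y, x⟩, z⟩ h
    have h1 : f (y, x) = p z := by
      have : f (y, x) - p z = 0 := h
      exact sub_eq_zero.mp this
    show f' ((e z * f (y, x)) • Q (y, x), x) - p (φ z) = 0
    rw [hf'.smul, ← hQ.pow, hN.pow, h1]
    ring

end Pool.Agent.Work.MP_e4a69c_an.DZ
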