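import Pool.Agent.Work.MP_e4a69c_an.DZ.Stmts

/-! Block DZ, item MF: from functions to multilinear maps. -/

set_option autoImplicit false

namespace Pool.Agent.Work.MP_e4a69c_an.DZ

open scoped Manifold ContDiff Topology
open Pool.Agent.Work.MP_e4a69c_an.SU Pool.Agent.Work.MP_e4a69c_an.ML

namespace IMF

theorem none_none {ι : Type} {M : Option ι → Type} (inst : DecidableEq (Option ι))
    (u : ∀ o, M o) (m : M none) : Function.update u none m none = m :=
  Function.update_self _ _ _

theorem none_some {ι : Type} {M : Option ι → Type} (inst : DecidableEq (Option ι))
    (u : ∀ o, M o) (m : M none) :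
    (fun i => Function.update u none m (some i)) = fun i => u (some i) := by
  funext i
  exact Function.update_of_ne (Option.some_ne_none i) _ _

theorem some_none {ι : Type} {M : Option ι → Type} (inst : DecidableEq (Option ι))
    (u : ∀ o, M o) (i : ι) (m : M (some i)) :
    Function.update u (some i) m none = u none :=
  Function.update_of_ne (Option.some_ne_none i).symm _ _

theorem some_some {ι : Type} [DecidableEq ι] {M : Option ι → Type}
    (inst : DecidableEq (Option ι)) (u : ∀ o, M o) (i : ι) (m : M (some i)) :
    (fun j => Function.update u (some i) m (some j)) =
      Function.update (fun j => u (some j)) i m := by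
  funext j
  by_cases h : j = i
  · subst h
    rw [Function.update_self, Function.update_self]
  · rw [Function.update_of_ne h, Function.update_of_ne (fun h' => h (Option.some_injective _ h'))]

end IMF

theorem pr_MF : StMF := by
  intro ι _ _ M _ _ f hf h1 h2
  refine ⟨⟨⟨fun u => f (u none, fun i => u (some i)), ?_, ?_⟩, ?_⟩, fun u => rfl⟩
  · intro inst u i x y
    rcases i with _ | i
    · simp only [IMF.none_none, IMF.none_some]
      exact (h1 _).map_add x y
    · simp only [IMF.some_none, IMF.some_some]
      exact (h2 _ _ i).map_add x y
  · intro inst u i c x
    rcases i with _ | i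
    · simp only [IMF.none_none, IMF.none_some]
      exact (h1 _).map_smul c x
    · simp only [IMF.some_none, IMF.some_some]
      exact (h2 _ _ i).map_smul c x
  · exact hf.continuous.comp ((continuous_apply none).prodMk
      (continuous_pi fun i => continuous_apply (some i)))

end Pool.Agent.Work.MP_e4a69c_an.DZ
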