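import Pool.Agent.Work.MP_e4a69c_an.DZ.Stmts

/-! Item MU of block DZ: the family with one distinguished member, `Option.rec E M`. -/

set_option autoImplicit false

namespace Pool.Agent.Work.MP_e4a69c_an.DZ

open scoped Manifold ContDiff Topology
open Pool.Agent.Work.MP_e4a69c_an.SU Pool.Agent.Work.MP_e4a69c_an.ML

theorem pr_MU (hMT2 : StMT2) : StMU := by
  intro 𝔤 i1 i2 G i3 i4 i5 i6 E e1 e2 e3 ι j1 j2 M m1 m2 m3 B b1 b2 b3 ρE ρ f p hf hlin hmul hinv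
    hp hdp
  let M' : Option ι → Type := fun o => @Option.rec ι (fun _ => Type) E M o
  let n1 : ∀ o, NormedAddCommGroup (M' o) := fun o =>
    @Option.rec ι (fun o => NormedAddCommGroup (M' o)) e1 m1 o
  let n2 : ∀ o, NormedSpace ℂ (M' o) := fun o =>
    @Option.rec ι (fun o => NormedSpace ℂ (M' o)) e2 m2 o
  let n3 : ∀ o, FiniteDimensional ℂ (M' o) := fun o =>
    @Option.rec ι (fun o => FiniteDimensional ℂ (M' o)) e3 m3 o
  let ρ' : ∀ o, GMod 𝔤 G (M' o) := fun o =>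
    @Option.rec ι (fun o => GMod 𝔤 G (M' o)) ρE ρ o
  exact @hMT2 𝔤 i1 i2 G i3 i4 i5 i6 ι j1 j2 M' n1 n2 n3 B b1 b2 b3 ρ' f p hf hlin hmul hinv hp hdp

end Pool.Agent.Work.MP_e4a69c_an.DZ
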