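import Pool.Agent.Work.MP_e4a69c_an.DZ.Aff
import Pool.Agent.Work.MP_e4a69c_an.DZ.Core

/-! Theorem DZ from its items. -/

set_option autoImplicit false

namespace Pool.Agent.Work.MP_e4a69c_an.DZ

open scoped Manifold ContDiff Topology
open Pool.Agent.Work.MP_e4a69c_an.SU Pool.Agent.Work.MP_e4a69c_an.ML

theorem gmod_ext {𝔤 : Type} [NormedAddCommGroup 𝔤] [NormedSpace ℂ 𝔤]
    {G : Type} [TopologicalSpace G] [ChartedSpace 𝔤 G] [Group G]
    {V : Type} [NormedAddCommGroup V] [NormedSpace ℂ V] (a b : GMod 𝔤 G V)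
    (h : ∀ g v, a.act g v = b.act g v) : a = b := by
  obtain ⟨a1, a2⟩ := a
  obtain ⟨b1, b2⟩ := b
  have h1 : a1 = b1 := by
    apply MonoidHom.ext
    intro g
    exact ContinuousLinearMap.ext (h g)
  subst h1
  rfl

theorem mainOf (hZS : StZS) (hMW : StMW) (hNZ : StNZ) (hSD : StSD) :
    ∀ (𝔤 : Type) [NormedAddCommGroup 𝔤] [NormedSpace ℂ 𝔤]
      (G : Type) [TopologicalSpace G] [ChartedSpace 𝔤 G] [Group G] [LieGroup 𝓘(ℂ, 𝔤) ω G]
      (ι : Type) [Fintype ι] [DecidableEq ι] (M : ι → Type)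
      [∀ i, NormedAddCommGroup (M i)] [∀ i, NormedSpace ℂ (M i)]
      [∀ i, FiniteDimensional ℂ (M i)]
      (E E' B : Type) [NormedAddCommGroup E] [NormedSpace ℂ E] [FiniteDimensional ℂ E]
      [NormedAddCommGroup E'] [NormedSpace ℂ E'] [FiniteDimensional ℂ E']
      [NormedAddCommGroup B] [NormedSpace ℂ B] [FiniteDimensional ℂ B]
      (ρ : ∀ i, GMod 𝔤 G (M i)) (ρE : GMod 𝔤 G E) (ρE' : GMod 𝔤 G E') (ρB : GMod 𝔤 G B)
      (ρV : GMod 𝔤 G ((E × (∀ i, M i)) × B)) (ρV' : GMod 𝔤 G ((E' × (∀ i, M i)) × B))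
      (f : E × (∀ i, M i) → ℂ) (f' : E' × (∀ i, M i) → ℂ) (p : B → ℂ),
      IsProdT ρE ρ ρB ρV → IsProdT ρE' ρ ρB ρV' → IsInv ρE ρ f → IsInv ρE' ρ f' →
      Below ρE ρE' ρ f f' → Below ρE' ρE ρ f' f → IsTBase ρB p →
      (∀ v ∈ YZ f p, TZ f p v ≠ Set.univ) ∧
      (EllZ ρV f p ↔ EllZ ρV' f' p) ∧
      (IsMultiAff f' → (EllC ρB p → EllZ ρV f p) ∧
        ∀ K : Subgroup G, IsCompactFormOf 𝔤 K ⊤ →
          (EllZ ρV f p ↔ EllZG ρV f p) ∧
          (EllZ ρV f p ↔ (∃ q, (∀ g, act2 ρE ρ g q = q) ∧ f q ≠ 0) ∨ EllC ρB p)) := by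
  intro 𝔤 _ _ G _ _ _ _ ι _ _ M _ _ _ E E' B _ _ _ _ _ _ _ _ _ ρ ρE ρE' ρB ρV ρV' f f' p
    hV hV' hf hf' hQ hP hp
  have hBt : ρB = GMod.triv B := gmod_ext _ _ (fun g z => hp.triv g z)
  have hVt : ρV = zMod ρE (piMod ρ) B := by
    apply gmod_ext
    rintro g ⟨q, z⟩
    refine (hV g q z).trans ?_
    refine Prod.ext rfl ?_
    exact hp.triv g z
  have hVt' : ρV' = zMod ρE' (piMod ρ) B := by
    apply gmod_ext
    rintro g ⟨q, z⟩
    refine (hV' g q z).trans ?_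
    refine Prod.ext rfl ?_
    exact hp.triv g z
  subst hBt
  subst hVt
  subst hVt'
  have hb : Bez p := hp.one
  have L : LinInv ρE (piMod ρ) f := ⟨hf.hol, fun y y' x => (hf.lin x).map_add y y',
    fun c y x => (hf.lin x).map_smul c y, fun g y x => hf.inv g (y, x)⟩
  have L' : LinInv ρE' (piMod ρ) f' := ⟨hf'.hol, fun y y' x => (hf'.lin x).map_add y y',
    fun c y x => (hf'.lin x).map_smul c y, fun g y x => hf'.inv g (y, x)⟩
  obtain ⟨n, Q, hQ1, hQ2, hQ3⟩ := hQ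
  obtain ⟨m, P, hP1, hP2, hP3⟩ := hP
  have DQ : Dmn ρE (piMod ρ) ρE' f f' n Q := ⟨hQ1, fun g y x => hQ2 g (y, x),
    fun y x => hQ3 (y, x)⟩
  have DP : Dmn ρE' (piMod ρ) ρE f' f m P := ⟨hP1, fun g y x => hP2 g (y, x),
    fun y x => hP3 (y, x)⟩
  obtain ⟨s1, s2, s3, s4⟩ := hSD E (∀ i, M i) B f p hf.hol L.smul hp.hol hb
  obtain ⟨s1', s2', s3', -⟩ := hSD E' (∀ i, M i) B f' p hf'.hol L'.smul hp.hol hb
  have hY : YZ f p = {v | fz f p v = 0} := by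
    ext v
    exact sub_eq_zero.symm
  have hT : TZ f p = (fun v => {τ | fderiv ℂ (fz f p) v τ = 0}) := by
    funext v
    ext τ
    show fderiv ℂ f v.1 τ.1 = fderiv ℂ p v.2 τ.2 ↔ fderiv ℂ (fz f p) v τ = 0
    rw [s2, sub_eq_zero]
  have hY' : YZ f' p = {v | fz f' p v = 0} := by
    ext v
    exact sub_eq_zero.symm
  have hT' : TZ f' p = (fun v => {τ | fderiv ℂ (fz f' p) v τ = 0}) := by
    funext v
    ext τ
    show fderiv ℂ f' v.1 τ.1 = fderiv ℂ p v.2 τ.2 ↔ fderiv ℂ (fz f' p) v τ = 0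
    rw [s2', sub_eq_zero]
  have E1 : EllZ (zMod ρE (piMod ρ) B) f p ↔ GElliptic (zMod ρE (piMod ρ) B) (fz f p) := by
    unfold EllZ
    rw [hY, hT, ← gell_iff]
  have E1' : EllZ (zMod ρE' (piMod ρ) B) f' p ↔
      GElliptic (zMod ρE' (piMod ρ) B) (fz f' p) := by
    unfold EllZ
    rw [hY', hT', ← gell_iff]
  have E2 : EllC (GMod.triv (𝔤 := 𝔤) (G := G) B) p ↔
      GElliptic (GMod.triv (𝔤 := 𝔤) (G := G) B) p := by
    unfold EllC
    rw [← gell_iff]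
  have Z1 : GElliptic (zMod ρE' (piMod ρ) B) (fz f' p) → GElliptic (zMod ρE (piMod ρ) B) (fz f p) :=
    hZS 𝔤 G E E' (∀ i, M i) B ρE ρE' (piMod ρ) f f' p n m Q P L L' DQ DP hp.hol hb
  have Z2 : GElliptic (zMod ρE (piMod ρ) B) (fz f p) → GElliptic (zMod ρE' (piMod ρ) B) (fz f' p) :=
    hZS 𝔤 G E' E (∀ i, M i) B ρE' ρE (piMod ρ) f' f p m n P Q L' L DP DQ hp.hol hb
  refine ⟨?_, ?_, ?_⟩
  · intro v hv hTv
    have h1 : fz f p v = 0 := by
      rw [hY] at hv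
      exact hv
    apply s3 v h1
    apply ContinuousLinearMap.ext
    intro τ
    have h2 : τ ∈ TZ f p v := by rw [hTv]; exact Set.mem_univ _
    rw [hT] at h2
    exact h2
  · rw [E1, E1']
    exact ⟨Z2, Z1⟩
  · intro hmul
    obtain ⟨m1, m2⟩ := hMW 𝔤 G E' ι M B ρE' ρ f' p hf'.hol hf'.lin hmul
      (fun g y x => hf'.inv g (y, x)) hp.hol s4
    have A : EllC (GMod.triv (𝔤 := 𝔤) (G := G) B) p → EllZ (zMod ρE (piMod ρ) B) f p := by
      intro h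
      rw [E1]
      rw [E2] at h
      exact Z1 (m1 h)
    refine ⟨A, ?_⟩
    intro K hK
    have E3 : EllZ (zMod ρE (piMod ρ) B) f p → EllZG (zMod ρE (piMod ρ) B) f p := by
      intro h
      rw [E1] at h
      have h1 := aOG 𝔤 G K ⊤ hK _ (zMod ρE (piMod ρ) B) (fz f p) s1 h
      unfold EllZG
      rw [hY, hT]
      exact (gell_fixed K ⊤ hK (zMod ρE (piMod ρ) B) (fz f p) s1).1 h1
    have E4 : EllZG (zMod ρE (piMod ρ) B) f p → ¬ (∃ q, (∀ g, act2 ρE ρ g q = q) ∧ f q ≠ 0) →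
        EllC (GMod.triv (𝔤 := 𝔤) (G := G) B) p := by
      intro h h0
      rw [E2]
      unfold EllZG at h
      rw [hY, hT] at h
      refine hNZ 𝔤 G E (∀ i, M i) B ρE (piMod ρ) f p L hp.hol hb ?_ h
      intro y x hy hx
      by_contra h1
      exact h0 ⟨(y, x), fun g => Prod.ext (hy g) (hx g), h1⟩
    have E5 : EllZG (zMod ρE (piMod ρ) B) f p →
        (∃ q, (∀ g, act2 ρE ρ g q = q) ∧ f q ≠ 0) ∨ EllC (GMod.triv (𝔤 := 𝔤) (G := G) B) p := by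
      intro h
      by_cases h0 : ∃ q, (∀ g, act2 ρE ρ g q = q) ∧ f q ≠ 0
      · exact Or.inl h0
      · exact Or.inr (E4 h h0)
    have E6 : ((∃ q, (∀ g, act2 ρE ρ g q = q) ∧ f q ≠ 0) ∨
        EllC (GMod.triv (𝔤 := 𝔤) (G := G) B) p) → EllZ (zMod ρE (piMod ρ) B) f p := by
      rintro (⟨q, hq, hfq⟩ | h)
      · rw [E1]
        apply Z1
        refine m2 (Q q) q.2 ?_ ?_ ?_
        · intro g
          have h1 := hQ2 g q
          rw [hq g] at h1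
          exact h1.symm
        · intro g i
          exact congrFun (congrArg Prod.snd (hq g)) i
        · rw [← hQ3 q]
          exact pow_ne_zero n hfq
      · exact A h
    exact ⟨⟨E3, fun h => E6 (E5 h)⟩, ⟨fun h => E5 (E3 h), E6⟩⟩

end Pool.Agent.Work.MP_e4a69c_an.DZ
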