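import Pool.Agent.Work.MP_e4a69c_an.DZ.Defs

/-! Items of theorem DZ (MP_e4a69c_an). Every docstring is a complete proof. `F = fz f p`,
`F(y,x,z) = f(y,x) - p(z)` on `V = (E × X) × B`; `V' = (E' × X) × B`, `F' = fz f' p`. Proved lemmas of
the blocks SU and ML may be used (`aQD aQH aGD aTR ...` of SU/All.lean: see SU/Stmts.lean for their
statements; `pr_DN`, `pr_BD`, `pr_TR`; `mAA`, `mOF` of ML/Final.lean). -/

set_option autoImplicit false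

namespace Pool.Agent.Work.MP_e4a69c_an.DZ

open scoped Manifold ContDiff Topology
open Pool.Agent.Work.MP_e4a69c_an.SU Pool.Agent.Work.MP_e4a69c_an.ML

/-- FX. PROOF. `S x` is `y ↦ f(y,x)`, linear, continuous as `E` is finite dimensional (or as `f` is).
`S` is differentiable: for a basis `e_i` of `E` an element `ζ` of `E →L[ℂ] ℂ` is a continuous linear function of the
`ζ(e_i)` and `x ↦ f(e_i,x)` is differentiable (see ML/I_DS.lean for the same argument). -/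
def StFX : Prop := ∀ (E X : Type) [NormedAddCommGroup E] [NormedSpace ℂ E]
  [FiniteDimensional ℂ E] [NormedAddCommGroup X] [NormedSpace ℂ X] (f : E × X → ℂ),
  Differentiable ℂ f → (∀ y y' x, f (y + y', x) = f (y, x) + f (y', x)) →
    (∀ (c : ℂ) y x, f (c • y, x) = c * f (y, x)) →
    ∃ S : X → (E →L[ℂ] ℂ), Differentiable ℂ S ∧ ∀ x y, S x y = f (y, x)

/-- NW (Newton maps of every order). PROOF. `hs : ∀ z, p z = 0 → fderiv ℂ p z ≠ 0` by `Bez`. STEP 1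
(order 2): `φ2 z = z - p(z) v(z)`. By QH (`aQH`) with `h = -(p(z) v(z))`: `p(φ2 z) - p z = qq p z h h =
-p(z) c(z)`, `c(z) = qq p z h (v z)` (entire, `aQD`). `c - dp(z)(v z)` vanishes on `{p = 0}` (there `h = 0` and
`qq p z 0 = fderiv ℂ p z`), so by GD (`aGD`) it is `d(z) p(z)`, `d` entire (`z ↦ fderiv ℂ p z (v z) = 1 - a p` is
entire). So `p(φ2 z) = p(1 - c) = p(1 - dp(v) - d p) = p(a p - d p) = p^2 (a - d)`. STEP 2 (doubling): if
`(φ,b,e)` has order `N` then `φ2 ∘ φ` has order `2N`: `p(φ2(φ z)) = p(φ z)^2 e2(φ z) = p^(2N) e^2 e2(φ z)`,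
`φ2(φ z) = φ z - p(φ z) v(φ z) = z - p b - p^N e v(φ z) = z - p (b + p^(N-1) e v(φ z))` for `N ≥ 1`. Order `1`:
`φ = id`, `b = 0`, `e = 1`. So all orders `2^k`; order `n ≤ 2^k`: the same `φ`, `b`, and `p^(2^k - n) e`. -/
def StNW : Prop := ∀ (B : Type) [NormedAddCommGroup B] [NormedSpace ℂ B] [FiniteDimensional ℂ B]
  (p : B → ℂ), Differentiable ℂ p → Bez p → ∀ n : ℕ, ∃ (φ b : B → B) (e : B → ℂ), Newt p n φ b e

/-- TL (tangent lemma). PROOF. For a functional `ℓ` of `H` the function `ℓ ∘ D` vanishes on `{F = 0}`, so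
`ℓ ∘ D = a F` with `a` entire (GD, `aGD`). Its derivative at `v` at `τ` is
`a(v) dF(v)τ + F(v) da(v)τ = 0`. Functionals separate the points of `H`
(`SeparatingDual.exists_ne_zero` or `NormedSpace.eq_zero_of_forall_dual_eq_zero`). -/
def StTL : Prop := ∀ (V H : Type) [NormedAddCommGroup V] [NormedSpace ℂ V]
  [FiniteDimensional ℂ V] [NormedAddCommGroup H] [NormedSpace ℂ H] (F : V → ℂ) (D : V → H),
  Differentiable ℂ F → Differentiable ℂ D → (∀ v, F v = 0 → fderiv ℂ F v ≠ 0) →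
    (∀ v, F v = 0 → D v = 0) → ∀ v, F v = 0 → ∀ τ, fderiv ℂ F v τ = 0 → fderiv ℂ D v τ = 0

/-- RT (retracts). PROOF (with TL). `s'` on `W` the dominating spray of `{F' = 0}`. Spray of `{F = 0}` on
`W × W0` with `σ'.prod ρ0`: `s(v,(w,u)) = T(s'(S v,w), K v + u)`. `s(v,0) = T(S v, K v) = v`; values in
`{F = 0}`; equivariant. Domination at `v`, `F v = 0`, `dF(v) τ = 0`: `F' ∘ S` vanishes on `{F = 0}`, so by TL
`dF'(S v)(dS(v) τ) = 0` and there is `w` with `D_w s'(S v,0) w = dS(v) τ`. Put `u = dK(v) τ`. The derivative of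
`s(v,·)` at `0` at `(w,u)` is `dT(S v,K v)(D_w s' w, u) = dT(S v, K v)(dS(v) τ, dK(v) τ)`, the derivative of
`v ↦ T(S v, K v)` at `v` at `τ`, which is `τ` by TL for `D v = T(S v,K v) - v`. -/
def StRT : Prop := ∀ (𝔤 : Type) [NormedAddCommGroup 𝔤] [NormedSpace ℂ 𝔤]
  (G : Type) [TopologicalSpace G] [ChartedSpace 𝔤 G] [Group G]
  (V V' W0 : Type) [NormedAddCommGroup V] [NormedSpace ℂ V] [FiniteDimensional ℂ V]
  [NormedAddCommGroup V'] [NormedSpace ℂ V'] [FiniteDimensional ℂ V']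
  [NormedAddCommGroup W0] [NormedSpace ℂ W0] [FiniteDimensional ℂ W0]
  (ρ : GMod 𝔤 G V) (ρ' : GMod 𝔤 G V') (ρ0 : GMod 𝔤 G W0) (F : V → ℂ) (F' : V' → ℂ)
  (S : V → V') (K : V → W0) (T : V' × W0 → V),
  Differentiable ℂ F → Differentiable ℂ F' → Differentiable ℂ S → Differentiable ℂ K →
  Differentiable ℂ T → (∀ v, F v = 0 → fderiv ℂ F v ≠ 0) →
  (∀ g v, S (ρ.act g v) = ρ'.act g (S v)) → (∀ g v, K (ρ.act g v) = ρ0.act g (K v)) →
  (∀ g v u, T (ρ'.act g v, ρ0.act g u) = ρ.act g (T (v, u))) →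
  (∀ v, F v = 0 → F' (S v) = 0) → (∀ v u, F' v = 0 → F (T (v, u)) = 0) →
  (∀ v, F v = 0 → T (S v, K v) = v) →
    GElliptic ρ' F' → GElliptic ρ F

/-- HT. PROOF. Compositions of entire maps, bounded bilinear maps (`clm_apply`, `clm_comp`) and
`(z,b) ↦ qq p z b` (`aQD`). -/
def StHT : Prop := ∀ (E E' X B : Type) [NormedAddCommGroup E] [NormedSpace ℂ E]
  [FiniteDimensional ℂ E] [NormedAddCommGroup E'] [NormedSpace ℂ E']
  [NormedAddCommGroup X] [NormedSpace ℂ X]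
  [NormedAddCommGroup B] [NormedSpace ℂ B] [FiniteDimensional ℂ B]
  (J : ((E →L[ℂ] ℂ) →L[ℂ] ℂ) →L[ℂ] E) (S : X → (E →L[ℂ] ℂ)) (f' : E' × X → ℂ)
  (P : E' × X → E) (p : B → ℂ) (φ : B → B) (e : B → ℂ),
  Differentiable ℂ S → Differentiable ℂ f' → Differentiable ℂ P → Differentiable ℂ p →
  Differentiable ℂ φ → Differentiable ℂ e → Differentiable ℂ (tz J S f' P p φ e)

/-- ET (equivariance of τ). Here `(g c)(ζ) = c(g⁻¹ ζ)`, `(g t)(ζ) = g t(g⁻¹ ζ)`. PROOF. `S(g x) = g S(x)`, so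
`(g c)(S(g x)) = c(S x)` and `(g t)(S(g x)) = g (t(S x))`. The terms with `J`: as in ML/I_MI.lean and
ML/I_MK.lean: `ζ(J Θ) = Θ ζ`; for every `ζ`, `ζ(J(q ∘ (g c))) = q(c(g⁻¹ ζ)) = (g⁻¹ ζ)(J(q ∘ c)) =
ζ(g J(q ∘ c))` (the module `ℂ` is trivial), and
`ζ(J((g S(x)) ∘ (g t))) = (g S(x))(g t(g⁻¹ ζ)) = S(x)(t(g⁻¹ ζ)) = ζ(g J(S(x) ∘ t))`; functionals separate points. -/
def StET : Prop := ∀ (𝔤 : Type) [NormedAddCommGroup 𝔤] [NormedSpace ℂ 𝔤]
  (G : Type) [TopologicalSpace G] [ChartedSpace 𝔤 G] [Group G] [LieGroup 𝓘(ℂ, 𝔤) ω G]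
  (E E' X B : Type) [NormedAddCommGroup E] [NormedSpace ℂ E]
  [FiniteDimensional ℂ E] [NormedAddCommGroup E'] [NormedSpace ℂ E']
  [NormedAddCommGroup X] [NormedSpace ℂ X]
  [NormedAddCommGroup B] [NormedSpace ℂ B] [FiniteDimensional ℂ B]
  (ρE : GMod 𝔤 G E) (ρE' : GMod 𝔤 G E') (ρX : GMod 𝔤 G X)
  (J : ((E →L[ℂ] ℂ) →L[ℂ] ℂ) →L[ℂ] E) (S : X → (E →L[ℂ] ℂ)) (f' : E' × X → ℂ)
  (P : E' × X → E) (p : B → ℂ) (φ : B → B) (e : B → ℂ),
  (∀ (Θ : (E →L[ℂ] ℂ) →L[ℂ] ℂ) (ζ : E →L[ℂ] ℂ), ζ (J Θ) = Θ ζ) →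
  (∀ g x, S (ρX.act g x) = (ρE.hom (GMod.triv ℂ)).act g (S x)) →
  (∀ g y x, f' (ρE'.act g y, ρX.act g x) = f' (y, x)) →
  (∀ g y x, P (ρE'.act g y, ρX.act g x) = ρE.act g (P (y, x))) →
  ∀ g v u, tz J S f' P p φ e ((zMod ρE' ρX B).act g v, (wMod ρE B).act g u) =
    (zMod ρE ρX B).act g (tz J S f' P p φ e (v, u))

/-- MT (τ maps `{F' = 0} × W0` to `{F = 0}`). PROOF. Let `v = ((y',x),z)`, `f'(y',x) = p(z)`, `c`, `t` the
parameters. `S x` is linear: `S x(new y) = e(z) f'(y',x) S x(P(y',x)) + qq p (φ z) (c(S x)) (c(S x)) + (S x(t(S x)) -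
S x(t(S x))) = e(z) f'(y',x)^(N+1) + p(φ z + c(S x)) - p(φ z)` (`aQH`) and `e(z) p(z)^(N+1) = p(φ z)`. -/
def StMT : Prop := ∀ (E E' X B : Type) [NormedAddCommGroup E] [NormedSpace ℂ E]
  [FiniteDimensional ℂ E] [NormedAddCommGroup E'] [NormedSpace ℂ E']
  [NormedAddCommGroup X] [NormedSpace ℂ X]
  [NormedAddCommGroup B] [NormedSpace ℂ B] [FiniteDimensional ℂ B]
  (J : ((E →L[ℂ] ℂ) →L[ℂ] ℂ) →L[ℂ] E) (S : X → (E →L[ℂ] ℂ)) (f : E × X → ℂ) (f' : E' × X → ℂ)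
  (P : E' × X → E) (p : B → ℂ) (φ b : B → B) (e : B → ℂ) (N : ℕ),
  (∀ (Θ : (E →L[ℂ] ℂ) →L[ℂ] ℂ) (ζ : E →L[ℂ] ℂ), ζ (J Θ) = Θ ζ) →
  (∀ x y, S x y = f (y, x)) → (∀ y x, f' (y, x) ^ N = f (P (y, x), x)) → Differentiable ℂ p →
  Newt p (N + 1) φ b e →
  ∀ v u, fz f' p v = 0 → fz f p (tz J S f' P p φ e (v, u)) = 0

/-- HS (the maps σ and κ). PROOF. Entire: compositions. Equivariance of `sg`: `f` invariant, `Q`
equivariant, `e`, `φ` functions of `z`. `kz`: `rk (g y) h = ` action of `g` on `rk y h` for `h ∈ B`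
(`(g c)(ζ) = c(g⁻¹ ζ)`, `(g⁻¹ ζ)(y) = ζ(g y)`) and `rk (g y) (g h) = g rk y h`; `kp(g v) = g kp(v)`. σ maps
`{F = 0}` to `{F' = 0}`: `f'(e f Q, x) = e f f^N = e p^(N+1) = p(φ z)`. -/
def StHS : Prop := ∀ (𝔤 : Type) [NormedAddCommGroup 𝔤] [NormedSpace ℂ 𝔤]
  (G : Type) [TopologicalSpace G] [ChartedSpace 𝔤 G] [Group G] [LieGroup 𝓘(ℂ, 𝔤) ω G]
  (E E' X B : Type) [NormedAddCommGroup E] [NormedSpace ℂ E]
  [FiniteDimensional ℂ E] [NormedAddCommGroup E'] [NormedSpace ℂ E']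
  [NormedAddCommGroup X] [NormedSpace ℂ X]
  [NormedAddCommGroup B] [NormedSpace ℂ B] [FiniteDimensional ℂ B]
  (ρE : GMod 𝔤 G E) (ρE' : GMod 𝔤 G E') (ρX : GMod 𝔤 G X) (f : E × X → ℂ) (f' : E' × X → ℂ)
  (Q : E × X → E') (P : E' × X → E) (p : B → ℂ) (φ b : B → B) (e : B → ℂ) (N : ℕ),
  LinInv ρE ρX f → LinInv ρE' ρX f' → Dmn ρE ρX ρE' f f' N Q → Dmn ρE' ρX ρE f' f N P →
  Differentiable ℂ p → Newt p (N + 1) φ b e →
  Differentiable ℂ (sg f Q φ e : (E × X) × B → (E' × X) × B) ∧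
  Differentiable ℂ (kz f Q P p φ b e N) ∧
  (∀ g (v : (E × X) × B), sg f Q φ e ((zMod ρE ρX B).act g v) =
    (zMod ρE' ρX B).act g (sg f Q φ e v)) ∧
  (∀ g v, kz f Q P p φ b e N ((zMod ρE ρX B).act g v) = (wMod ρE B).act g
    (kz f Q P p φ b e N v)) ∧
  (∀ v, fz f p v = 0 → fz f' p (sg f Q φ e v) = 0)

/-- ID (`τ(σ(v),κ(v)) = v` on `{F = 0}`). PROOF. Let `v = ((y,x),z)`, `f(y,x) = p(z)`; write `f` for
`f(y,x)`, `e = e(z)`, `e1 = e(φ z)`, `z1 = φ z`, `y1 = e f Q`; `f'(y1,x) = e f^(N+1)`.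
(z) `φ(φ z) = φ z - p(φ z) b(φ z) = z - p b - p^(N+1) e b(φ z) = z - p(z) b2(z)`; `c(S x) = f b2(z) =
p(z) b2(z)`. So the last component is `z`.
(q) Let `q = qq p (φ(φ z)) (p(z) b2(z))`. CLAIM `1 - q(b2(z)) = p^(N*N+2*N) e^(N+1) e1` for all `z` in `B`: both
sides are continuous (entire: `aQD`), and where `p z ≠ 0` (dense, `pr_DN`) `p q(b2) = q(p b2) = p(z) - p(φ(φ z))`
(`aQH`) and `p(φ(φ z)) = p(φ z)^(N+1) e1 = p^((N+1)(N+1)) e^(N+1) e1`. `J(q ∘ rk y b2) = q(b2) y` (functionals).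
(y) `t = rk y κ'`: `t(S x) = f κ'`, `J(S x ∘ t) = S x(κ') y = f(κ',x) y`, and `f(κ',x) = e1 (f^(N*N+2*N-1) e^(N+1) f -
e f^N f(P(y1,x),x)) = e1 (f^(N*N+2*N) e^(N+1) - e f^N (e f^(N+1))^N) = 0` (`N ≥ 1`). The sum is
`e1 e f^(N+1) P(y1,x) + q(b2) y + f κ' = e1 e f^(N+1) P + y - p^(N*N+2*N) e^(N+1) e1 y +
e1 f^(N*N+2*N) e^(N+1) y - e1 e f^(N+1) P = y` as `f = p(z)`. -/
def StID : Prop := ∀ (E E' X B : Type) [NormedAddCommGroup E] [NormedSpace ℂ E]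
  [FiniteDimensional ℂ E] [NormedAddCommGroup E'] [NormedSpace ℂ E']
  [NormedAddCommGroup X] [NormedSpace ℂ X]
  [NormedAddCommGroup B] [NormedSpace ℂ B] [FiniteDimensional ℂ B]
  (J : ((E →L[ℂ] ℂ) →L[ℂ] ℂ) →L[ℂ] E) (S : X → (E →L[ℂ] ℂ)) (f : E × X → ℂ) (f' : E' × X → ℂ)
  (Q : E × X → E') (P : E' × X → E) (p : B → ℂ) (φ b : B → B) (e : B → ℂ) (N : ℕ),
  (∀ (Θ : (E →L[ℂ] ℂ) →L[ℂ] ℂ) (ζ : E →L[ℂ] ℂ), ζ (J Θ) = Θ ζ) →
  (∀ x y, S x y = f (y, x)) → (∀ (c : ℂ) y x, f' (c • y, x) = c * f' (y, x)) →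
  (∀ y x, f (y, x) ^ N = f' (Q (y, x), x)) → (∀ y x, f' (y, x) ^ N = f (P (y, x), x)) →
  1 ≤ N → Differentiable ℂ p → (∀ z, p z = 0 → fderiv ℂ p z ≠ 0) → Newt p (N + 1) φ b e →
  ∀ v, fz f p v = 0 → tz J S f' P p φ e (sg f Q φ e v, kz f Q P p φ b e N v) = v

/-- SD (derivative and smoothness). PROOF. Chain rule. If `f(y,x) = p(z)` and `dF = 0` at `((y,x),z)`, then
`fderiv ℂ f (y,x) = 0` and `fderiv ℂ p z = 0`; by `Bez` `p z ≠ 0`. But `f(c y,x) = c f(y,x)`, so the derivative of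
`c ↦ f(c y,x)` at `1` is `f(y,x) = p z ≠ 0`, and it is `fderiv ℂ f (y,x) (y,0) = 0`. The last assertion is `Bez`. -/
def StSD : Prop := ∀ (E X B : Type) [NormedAddCommGroup E] [NormedSpace ℂ E]
  [NormedAddCommGroup X] [NormedSpace ℂ X] [NormedAddCommGroup B] [NormedSpace ℂ B]
  (f : E × X → ℂ) (p : B → ℂ), Differentiable ℂ f →
  (∀ (c : ℂ) y x, f (c • y, x) = c * f (y, x)) → Differentiable ℂ p → Bez p →
  Differentiable ℂ (fz f p) ∧
  (∀ v τ, fderiv ℂ (fz f p) v τ = fderiv ℂ f v.1 τ.1 - fderiv ℂ p v.2 τ.2) ∧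
  (∀ v, fz f p v = 0 → fderiv ℂ (fz f p) v ≠ 0) ∧ (∀ z, p z = 0 → fderiv ℂ p z ≠ 0)

/-- ZS (the principle). PROOF (with FX, NW, RT, HT, ET, MT, HS, ID, SD). Common exponent: `N = n + m + 1`;
`Dmn` for `f^(N-n) Q` and `f'^(N-m) P`: `f^N = f^(N-n) f'(Q,x) = f'(f^(N-n) Q,x)` (linear in the first
variable; `f` invariant). `J` from `pr_BD`, `S` from FX for `f`; `S(g x) = g S(x)`:
`S(g x)(y) = f(y,g x) = f(g⁻¹ y,x)` by invariance. Newton map of order `N + 1` (NW). Then RT with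
`S := sg`, `K := kz`, `T := tz`, `ρ0 = wMod`. -/
def StZS : Prop := ∀ (𝔤 : Type) [NormedAddCommGroup 𝔤] [NormedSpace ℂ 𝔤]
  (G : Type) [TopologicalSpace G] [ChartedSpace 𝔤 G] [Group G] [LieGroup 𝓘(ℂ, 𝔤) ω G]
  (E E' X B : Type) [NormedAddCommGroup E] [NormedSpace ℂ E] [FiniteDimensional ℂ E]
  [NormedAddCommGroup E'] [NormedSpace ℂ E'] [FiniteDimensional ℂ E']
  [NormedAddCommGroup X] [NormedSpace ℂ X] [FiniteDimensional ℂ X]
  [NormedAddCommGroup B] [NormedSpace ℂ B] [FiniteDimensional ℂ B]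
  (ρE : GMod 𝔤 G E) (ρE' : GMod 𝔤 G E') (ρX : GMod 𝔤 G X) (f : E × X → ℂ) (f' : E' × X → ℂ)
  (p : B → ℂ) (n m : ℕ) (Q : E × X → E') (P : E' × X → E),
  LinInv ρE ρX f → LinInv ρE' ρX f' → Dmn ρE ρX ρE' f f' n Q → Dmn ρE' ρX ρE f' f m P →
  Differentiable ℂ p → Bez p →
    GElliptic (zMod ρE' ρX B) (fz f' p) → GElliptic (zMod ρE ρX B) (fz f p)

/-- MF (from functions to multilinear maps). `f(y,x)` linear in `y` and in each `x i` is a continuous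
multilinear map in the variables indexed by `Option ι`. PROOF. `M' none = E`, `M' (some i) = M i`.
`F'(u) = f(u none, fun i => u (some i))`: additivity and homogeneity in the slot `none` and in the slots
`some i` (`Function.update` and `Option`: `fun i => update u (some i) m (some j)` is
`update (fun j => u (some j)) i m`), continuous because `f` is entire so continuous. -/
def StMF : Prop := ∀ (ι : Type) [Fintype ι] [DecidableEq ι] (M : Option ι → Type)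
  [∀ o, NormedAddCommGroup (M o)] [∀ o, NormedSpace ℂ (M o)]
  (f : M none × (∀ i, M (some i)) → ℂ), Differentiable ℂ f →
  (∀ x, IsLinearMap ℂ (fun y => f (y, x))) →
  (∀ y x i, IsLinearMap ℂ (fun m => f (y, Function.update x i m))) →
  ∃ F' : ContinuousMultilinearMap ℂ M ℂ, ∀ u, F' u = f (u none, fun i => u (some i))

/-- MT2 (multilinear case: transfer from the block ML), stated for a family `M` indexed by `Option ι`. PROOF
(with MF). `Φ : (M none × (∀ i, M (some i))) × B ≃L (∀ o, M o) × B` from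
`LinearEquiv.piOptionEquivProd` (or by hand), continuous as all spaces are finite dimensional; it
intertwines `zMod (ρ none) (piMod fun i => ρ (some i)) B` with `(piMod ρ).prod (GMod.triv B)` and
`fz f p v = fs F' p (Φ v)`. Apply `aTR` / `pr_TR` (`c = 1`) to the results of ML: (a) `mAA` with
`ρL = GMod.triv ℂ`, `ρB = GMod.triv B`, `ρV = (piMod ρ).prod (GMod.triv B)`; (b) `mOF` for the vector
`u` with `u none = y0`, `u (some i) = x0 i`. -/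
def StMT2 : Prop := ∀ (𝔤 : Type) [NormedAddCommGroup 𝔤] [NormedSpace ℂ 𝔤]
  (G : Type) [TopologicalSpace G] [ChartedSpace 𝔤 G] [Group G] [LieGroup 𝓘(ℂ, 𝔤) ω G]
  (ι : Type) [Fintype ι] [DecidableEq ι] (M : Option ι → Type)
  [∀ o, NormedAddCommGroup (M o)] [∀ o, NormedSpace ℂ (M o)] [∀ o, FiniteDimensional ℂ (M o)]
  (B : Type) [NormedAddCommGroup B] [NormedSpace ℂ B] [FiniteDimensional ℂ B]
  (ρ : ∀ o, GMod 𝔤 G (M o)) (f : M none × (∀ i, M (some i)) → ℂ) (p : B → ℂ),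
  Differentiable ℂ f → (∀ x, IsLinearMap ℂ (fun y => f (y, x))) →
  (∀ y x i, IsLinearMap ℂ (fun m => f (y, Function.update x i m))) →
  (∀ g y x, f ((ρ none).act g y, fun i => (ρ (some i)).act g (x i)) = f (y, x)) →
  Differentiable ℂ p → (∀ z, p z = 0 → fderiv ℂ p z ≠ 0) →
    (GElliptic (GMod.triv (𝔤 := 𝔤) (G := G) B) p →
      GElliptic (zMod (ρ none) (piMod fun i => ρ (some i)) B) (fz f p)) ∧
    (∀ y0 x0, (∀ g, (ρ none).act g y0 = y0) → (∀ g i, (ρ (some i)).act g (x0 i) = x0 i) →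
      f (y0, x0) ≠ 0 → GElliptic (zMod (ρ none) (piMod fun i => ρ (some i)) B) (fz f p))

/-- MU (the same for a module `E` and a family `M` over `ι`). PROOF (with MT2). Apply MT2 to the family
`Option.rec E M` (`M' none = E`, `M' (some i) = M i` by definition) with the instances and modules given by
`Option.rec`. -/
def StMU : Prop := ∀ (𝔤 : Type) [NormedAddCommGroup 𝔤] [NormedSpace ℂ 𝔤]
  (G : Type) [TopologicalSpace G] [ChartedSpace 𝔤 G] [Group G] [LieGroup 𝓘(ℂ, 𝔤) ω G]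
  (E : Type) [NormedAddCommGroup E] [NormedSpace ℂ E] [FiniteDimensional ℂ E]
  (ι : Type) [Fintype ι] [DecidableEq ι] (M : ι → Type)
  [∀ i, NormedAddCommGroup (M i)] [∀ i, NormedSpace ℂ (M i)] [∀ i, FiniteDimensional ℂ (M i)]
  (B : Type) [NormedAddCommGroup B] [NormedSpace ℂ B] [FiniteDimensional ℂ B]
  (ρE : GMod 𝔤 G E) (ρ : ∀ i, GMod 𝔤 G (M i)) (f : E × (∀ i, M i) → ℂ) (p : B → ℂ),
  Differentiable ℂ f → (∀ x, IsLinearMap ℂ (fun y => f (y, x))) →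
  (∀ y x i, IsLinearMap ℂ (fun m => f (y, Function.update x i m))) →
  (∀ g y x, f (ρE.act g y, fun i => (ρ i).act g (x i)) = f (y, x)) →
  Differentiable ℂ p → (∀ z, p z = 0 → fderiv ℂ p z ≠ 0) →
    (GElliptic (GMod.triv (𝔤 := 𝔤) (G := G) B) p →
      GElliptic (zMod ρE (piMod ρ) B) (fz f p)) ∧
    (∀ y0 x0, (∀ g, ρE.act g y0 = y0) → (∀ g i, (ρ i).act g (x0 i) = x0 i) →
      f (y0, x0) ≠ 0 → GElliptic (zMod ρE (piMod ρ) B) (fz f p))

/-- NZ (from the fixed locus to `C`). PROOF (with SD). As ML/I_NC.lean. `s` on `W` the given spray of the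
fixed locus; `Z(z,w) = (s((0,z),w)).2` on `B × W`, same `σ`, `0 = (0,0)` in `E × X`. Let `p z = 0`. `(0,z)` is in the
set: `f(0,0) = 0` (`smul` with `c = 0`), fixed. `s((0,z),w)` is in the set, so its first component is a
fixed pair `(y,x)`, `f = 0` there, so `p(Z(z,w)) = 0`. Domination: `dp(z) b = 0`, `τ = (0,b)` is fixed and in the
kernel (SD), take `w` for `τ` and the second component. -/
def StNZ : Prop := ∀ (𝔤 : Type) [NormedAddCommGroup 𝔤] [NormedSpace ℂ 𝔤]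
  (G : Type) [TopologicalSpace G] [ChartedSpace 𝔤 G] [Group G] [LieGroup 𝓘(ℂ, 𝔤) ω G]
  (E X B : Type) [NormedAddCommGroup E] [NormedSpace ℂ E]
  [NormedAddCommGroup X] [NormedSpace ℂ X] [NormedAddCommGroup B] [NormedSpace ℂ B]
  (ρE : GMod 𝔤 G E) (ρX : GMod 𝔤 G X) (f : E × X → ℂ) (p : B → ℂ), LinInv ρE ρX f →
  Differentiable ℂ p → Bez p →
  (∀ y x, (∀ g, ρE.act g y = y) → (∀ g, ρX.act g x = x) → f (y, x) = 0) →
    GEll (zMod ρE ρX B) ({v | fz f p v = 0} ∩ {v | ∀ n ∈ (⊤ : Subgroup G),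
      (zMod ρE ρX B).act n v = v})
      (fun v => {τ | fderiv ℂ (fz f p) v τ = 0} ∩ {τ | ∀ n ∈ (⊤ : Subgroup G),
        (zMod ρE ρX B).act n τ = τ}) →
    GElliptic (GMod.triv (𝔤 := 𝔤) (G := G) B) p

end Pool.Agent.Work.MP_e4a69c_an.DZ
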